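import Pool.Agent.Lib_helper46.DP.GR

/-!
# A finite group with a quotient that contains the wreath product of a cyclic group of prime order
-/

set_option autoImplicit false

namespace Pool.Agent.DP

open Equiv MulAction

section all

variable {G Ω Δ : Type} [Group G] [MulAction G Ω] [DecidableEq Ω]

/-- All permutations that preserve the blocks are induced. -/
theorem ta_all [Fintype Ω] {f : Ω → Δ} (hsw : ∀ x y : Ω, f x = f y → SwapIn G x y)
    (π : Perm Ω) (hπ : ∀ x, f (π x) = f x) : ∃ g : G, toPermHom G Ω g = π := by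
  induction h : π.support.card using Nat.strong_induction_on generalizing π with
  | _ N ih =>
    by_cases h1 : π = 1
    · exact ⟨1, by rw [map_one, h1]⟩
    · obtain ⟨x, hx⟩ : ∃ x, π x ≠ x := by
        by_contra hcon
        push Not at hcon
        exact h1 (Equiv.ext hcon)
      have hs : ∀ z, f (swap x (π x) z) = f z := by
        intro z
        by_cases hz1 : z = x
        · rw [hz1, swap_apply_left, hπ]
        · by_cases hz2 : z = π x
          · rw [hz2, swap_apply_right, hπ]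
          · rw [swap_apply_of_ne_of_ne hz1 hz2]
      obtain ⟨g, hg⟩ := ih _ (by rw [← h]; exact Perm.card_support_swap_mul hx)
        (swap x (π x) * π) (by
          intro z
          rw [Perm.mul_apply, hs, hπ]) rfl
      obtain ⟨k, hk⟩ := hsw x (π x) (hπ x).symm
      refine ⟨k * g, ?_⟩
      rw [map_mul, hk, hg, ← mul_assoc, swap_mul_self, one_mul]

end all

section group

variable {Δ : Type} {m : ℕ}

/-- The shift of `Δ × ZMod m` by `a`. -/
def sh (a : Δ → ZMod m) : Perm (Δ × ZMod m) where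
  toFun x := (x.1, x.2 + a x.1)
  invFun x := (x.1, x.2 - a x.1)
  left_inv x := by simp
  right_inv x := by simp

theorem sh_apply (a : Δ → ZMod m) (x : Δ × ZMod m) : sh a x = (x.1, x.2 + a x.1) := rfl

theorem sh_add (a b : Δ → ZMod m) : sh (a + b) = sh a * sh b := by
  refine Equiv.ext fun x => ?_
  rw [Perm.mul_apply, sh_apply, sh_apply, sh_apply]
  simp only [Pi.add_apply]
  rw [add_assoc, add_comm (b x.1)]

theorem sh_zero : sh (0 : Δ → ZMod m) = 1 := by
  refine Equiv.ext fun x => ?_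
  rw [sh_apply, Pi.zero_apply, add_zero]
  rfl

theorem sh_inj {a b : Δ → ZMod m} (h : sh a = sh b) : a = b := by
  funext δ
  have h1 := congrArg (fun π : Perm (Δ × ZMod m) => (π (δ, 0)).2) h
  simpa [sh_apply] using h1

/-- The shifts. -/
def shHom : Multiplicative (Δ → ZMod m) →* Perm (Δ × ZMod m) where
  toFun a := sh a.toAdd
  map_one' := sh_zero
  map_mul' _ _ := sh_add _ _

/-- The permutation `(δ, x) ↦ (τ δ, c x)`. -/
def af (τ : Perm Δ) (c : (ZMod m)ˣ) : Perm (Δ × ZMod m) where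
  toFun x := (τ x.1, c * x.2)
  invFun x := (τ⁻¹ x.1, ((c⁻¹ : (ZMod m)ˣ) : ZMod m) * x.2)
  left_inv x := by simp
  right_inv x := by simp

theorem af_apply (τ : Perm Δ) (c : (ZMod m)ˣ) (x : Δ × ZMod m) :
    af τ c x = (τ x.1, (c : ZMod m) * x.2) := rfl

theorem af_sh (τ : Perm Δ) (c : (ZMod m)ˣ) (a : Δ → ZMod m) :
    af τ c * sh a * (af τ c)⁻¹ = sh (fun δ => (c : ZMod m) * a (τ⁻¹ δ)) := by
  rw [mul_inv_eq_iff_eq_mul]
  refine Equiv.ext fun x => ?_
  rw [Perm.mul_apply, Perm.mul_apply, sh_apply, sh_apply, af_apply, af_apply]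
  simp only
  rw [show τ⁻¹ (τ x.1) = x.1 from τ.symm_apply_apply x.1, mul_add]

/-- **The lifts of the shifts.** -/
theorem ta_section [Finite Δ] {Γ : Type} [Group Γ] [Finite Γ] [hm : Fact m.Prime] {q : ℕ}
    [hq : Fact q.Prime] (hqm : m ≠ q) (φ : Γ →* Perm (Δ × ZMod m))
    (hK : ∀ g, φ g = 1 → ∃ s : ℕ, g ^ q ^ s = 1) (hT : ∀ a : Δ → ZMod m, ∃ g, φ g = sh a) :
    ∃ p : Multiplicative (Δ → ZMod m) →* Γ, (∀ a, φ (p a) = shHom a) ∧
      ∀ (lam : Γ) (τ : Perm Δ) (c : (ZMod m)ˣ), φ lam = af τ c → ∃ ν : Γ, ∀ a : Δ → ZMod m,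
        ν * p (Multiplicative.ofAdd a) * ν⁻¹ =
          p (Multiplicative.ofAdd fun δ => (c : ZMod m) * a (τ⁻¹ δ)) := by
  classical
  have := Fintype.ofFinite Δ
  let T : Subgroup (Perm (Δ × ZMod m)) := (shHom (Δ := Δ) (m := m)).range
  have hTmem : ∀ t, t ∈ T ↔ ∃ a : Δ → ZMod m, sh a = t :=
    fun t => ⟨fun ⟨a, ha⟩ => ⟨a.toAdd, ha⟩, fun ⟨a, ha⟩ => ⟨Multiplicative.ofAdd a, ha⟩⟩
  have hTcomm : ∀ s ∈ T, ∀ t ∈ T, s * t = t * s := by
    rintro _ ⟨a, rfl⟩ _ ⟨b, rfl⟩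
    rw [← map_mul, ← map_mul, mul_comm]
  let Γ' : Subgroup Γ := (Subgroup.normalizer (T : Set (Perm (Δ × ZMod m)))).comap φ
  let φ' : Γ' →* Perm (Δ × ZMod m) := φ.comp Γ'.subtype
  have hφ' : ∀ g : Γ', φ' g = φ g.1 := fun g => rfl
  have hnorm : ∀ (g : Γ') (t), t ∈ T ↔ φ' g * t * (φ' g)⁻¹ ∈ T :=
    fun g => Subgroup.mem_normalizer_iff.1 g.2
  let N : Subgroup Γ' := T.comap φ'
  have hN : N.Normal := ⟨fun n hn g => by
    change φ' (g * n * g⁻¹) ∈ T
    rw [map_mul, map_mul, map_inv]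
    exact (hnorm g _).1 hn⟩
  obtain ⟨P⟩ : Nonempty (Sylow m N) := inferInstance
  let Q : Subgroup Γ' := P.1.map N.subtype
  have hQN : Q ≤ N := Subgroup.map_subtype_le _
  -- `φ'` is injective on `Q`
  have hinj : ∀ x ∈ Q, φ' x = 1 → x = 1 := by
    rintro _ ⟨x, hx, rfl⟩ h1
    obtain ⟨s, hs⟩ := hK x.1.1 h1
    obtain ⟨r, hr⟩ := P.isPGroup' ⟨x, hx⟩
    have h2 : x.1.1 ^ m ^ r = 1 := by
      have h3 := congrArg (fun y : P.1 => ((y.1 : N) : Γ').1) hr
      simpa using h3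
    have h3 : orderOf x.1.1 ∣ Nat.gcd (q ^ s) (m ^ r) :=
      Nat.dvd_gcd (orderOf_dvd_of_pow_eq_one hs) (orderOf_dvd_of_pow_eq_one h2)
    have h4 : Nat.gcd (q ^ s) (m ^ r) = 1 := by
      apply Nat.Coprime.pow
      rw [Nat.coprime_primes hq.out hm.out]
      exact hqm.symm
    rw [h4, Nat.dvd_one, orderOf_eq_one_iff] at h3
    exact Subtype.ext h3
  -- the cardinality
  let ψ : N →* T := (φ'.comp N.subtype).codRestrict T fun x => x.2
  have hψ : ∀ x : N, ((ψ x : T) : Perm (Δ × ZMod m)) = φ' x.1 := fun x => rfl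
  have hψsurj : Function.Surjective ψ := by
    rintro ⟨t, ht⟩
    obtain ⟨a, ha⟩ := (hTmem t).1 ht
    obtain ⟨g, hg⟩ := hT a
    have hgΓ : g ∈ Γ' := by
      change φ g ∈ Subgroup.normalizer (T : Set (Perm (Δ × ZMod m)))
      apply Subgroup.le_normalizer
      rw [hg, hTmem]
      exact ⟨a, rfl⟩
    refine ⟨⟨⟨g, hgΓ⟩, ?_⟩, ?_⟩
    · change φ g ∈ T
      rw [hg, hTmem]
      exact ⟨a, rfl⟩
    · apply Subtype.ext
      rw [hψ]
      change φ g = t
      rw [hg, ha]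
  have hcardT : Nat.card T = m ^ Fintype.card Δ := by
    have h1 : Nat.card T = Nat.card (Δ → ZMod m) := by
      refine (Nat.card_congr (Equiv.ofBijective
        (fun a : Δ → ZMod m => (⟨sh a, (hTmem _).2 ⟨a, rfl⟩⟩ : T)) ⟨?_, ?_⟩)).symm
      · intro a b hab
        exact sh_inj (congrArg Subtype.val hab)
      · rintro ⟨t, ht⟩
        obtain ⟨a, ha⟩ := (hTmem t).1 ht
        exact ⟨a, Subtype.ext ha⟩
    rw [h1, Nat.card_fun, Nat.card_zmod, Nat.card_eq_fintype_card]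
  have hker : ∃ s, Nat.card ψ.ker = q ^ s := by
    rw [← IsPGroup.iff_card]
    rintro ⟨x, hx⟩
    have h1 : φ' x.1 = 1 := by
      rw [← hψ, (MonoidHom.mem_ker).1 hx]
      rfl
    obtain ⟨s, hs⟩ := hK x.1.1 h1
    refine ⟨s, ?_⟩
    apply Subtype.ext
    apply Subtype.ext
    apply Subtype.ext
    exact hs
  obtain ⟨s, hs⟩ := hker
  have hcardN : Nat.card N = q ^ s * m ^ Fintype.card Δ := by
    rw [← Subgroup.card_mul_index ψ.ker, Subgroup.index_ker, hs,
      MonoidHom.range_eq_top.2 hψsurj, Subgroup.card_top, hcardT]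
  have hcardP : Nat.card P.1 = m ^ Fintype.card Δ := by
    have h1 : Nat.card P.1 = m ^ (Nat.card N).factorization m := P.card_eq_multiplicity
    rw [h1, hcardN, Nat.factorization_mul (pow_ne_zero _ hq.out.ne_zero)
      (pow_ne_zero _ hm.out.ne_zero), Finsupp.add_apply, Nat.factorization_pow, Nat.factorization_pow,
      Finsupp.smul_apply, Finsupp.smul_apply, hm.out.factorization_self, hq.out.factorization]
    rw [Finsupp.single_apply, if_neg hqm.symm]
    simp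
  -- `Q` maps onto `T`
  let θ : P.1 → T := fun x => ψ x.1
  have hθinj : Function.Injective θ := by
    intro x y hxy
    have h1 : ψ (x.1 * y.1⁻¹) = 1 := by
      rw [map_mul, map_inv]
      have h2 : ψ x.1 = ψ y.1 := hxy
      rw [h2, mul_inv_cancel]
    have h2 := hinj (x.1 * y.1⁻¹ : N) ⟨x.1 * y.1⁻¹, P.1.mul_mem x.2 (P.1.inv_mem y.2), rfl⟩ (by
      rw [← hψ, h1]
      rfl)
    have h3 : x.1 * y.1⁻¹ = 1 := Subtype.ext h2
    exact Subtype.ext (mul_inv_eq_one.1 h3)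
  have hθ : Function.Bijective θ := by
    have : Finite P.1 := inferInstance
    have : Finite T := inferInstance
    exact (Nat.bijective_iff_injective_and_card θ).2 ⟨hθinj, by rw [hcardP, hcardT]⟩
  have hsec : ∀ a : Δ → ZMod m, ∃ x : Γ', x ∈ Q ∧ φ' x = sh a := by
    intro a
    obtain ⟨x, hx⟩ := hθ.2 ⟨sh a, (hTmem _).2 ⟨a, rfl⟩⟩
    refine ⟨x.1.1, ⟨x.1, x.2, rfl⟩, ?_⟩
    rw [← hψ]
    exact congrArg Subtype.val hx
  choose sec hsecQ hsecφ using hsec
  have huniq : ∀ x ∈ Q, ∀ y ∈ Q, φ' x = φ' y → x = y := by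
    intro x hx y hy hxy
    have h1 := hinj (x * y⁻¹) (Q.mul_mem hx (Q.inv_mem hy)) (by
      rw [map_mul, map_inv, hxy, mul_inv_cancel])
    exact mul_inv_eq_one.1 h1
  let p : Multiplicative (Δ → ZMod m) →* Γ :=
    { toFun := fun a => (sec a.toAdd).1
      map_one' := by
        have h1 : sec (0 : Δ → ZMod m) = 1 := by
          refine huniq _ (hsecQ _) _ Q.one_mem ?_
          rw [hsecφ, map_one, sh_zero]
        exact congrArg Subtype.val h1
      map_mul' := by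
        intro a b
        have h1 : sec (a.toAdd + b.toAdd) = sec a.toAdd * sec b.toAdd := by
          refine huniq _ (hsecQ _) _ (Q.mul_mem (hsecQ _) (hsecQ _)) ?_
          rw [hsecφ, map_mul, hsecφ, hsecφ, sh_add]
        exact congrArg Subtype.val h1 }
  refine ⟨p, fun a => hsecφ _, ?_⟩
  intro lam τ c hlam
  have hlamΓ : lam ∈ Γ' := by
    change φ lam ∈ Subgroup.normalizer (T : Set (Perm (Δ × ZMod m)))
    rw [Subgroup.mem_normalizer_iff]
    intro t
    rw [hlam]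
    constructor
    · intro ht
      obtain ⟨a, rfl⟩ := (hTmem t).1 ht
      rw [af_sh, hTmem]
      exact ⟨_, rfl⟩
    · intro ht
      obtain ⟨b, hb⟩ := (hTmem _).1 ht
      rw [hTmem]
      refine ⟨fun δ => ((c⁻¹ : (ZMod m)ˣ) : ZMod m) * b (τ δ), ?_⟩
      have h1 : af τ c * sh (fun δ => ((c⁻¹ : (ZMod m)ˣ) : ZMod m) * b (τ δ)) * (af τ c)⁻¹ =
          af τ c * t * (af τ c)⁻¹ := by
        rw [af_sh, ← hb]
        congr 1
        funext δ
        rw [← mul_assoc, Units.mul_inv, one_mul, show τ (τ⁻¹ δ) = δ from τ.apply_symm_apply δ]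
      exact mul_left_cancel (mul_right_cancel h1)
  -- Frattini
  have hfr := Sylow.normalizer_sup_eq_top P
  have h1 : (⟨lam, hlamΓ⟩ : Γ') ∈ Subgroup.normalizer (Q : Set Γ') ⊔ N := by
    rw [show Q = P.1.map N.subtype from rfl, hfr]
    exact Subgroup.mem_top _
  obtain ⟨ν, hν, y, hy, hνy⟩ := Subgroup.mem_sup_of_normal_right.1 h1
  refine ⟨ν.1, fun a => ?_⟩
  have h2 : ν * sec a * ν⁻¹ = sec (fun δ => (c : ZMod m) * a (τ⁻¹ δ)) := by
    refine huniq _ ((Subgroup.mem_normalizer_iff.1 hν _).1 (hsecQ a)) _ (hsecQ _) ?_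
    have h3 : φ' ν = af τ c * (φ' y)⁻¹ := by
      rw [eq_mul_inv_iff_mul_eq, ← map_mul, hνy]
      exact hlam
    have h4 : (φ' y)⁻¹ * sh a * φ' y = sh a := by
      have h5 := hTcomm (φ' y) hy (sh a) ((hTmem _).2 ⟨a, rfl⟩)
      rw [mul_assoc, ← h5, ← mul_assoc, inv_mul_cancel, one_mul]
    rw [map_mul, map_mul, map_inv, hsecφ, hsecφ, h3, mul_inv_rev, inv_inv, ← af_sh]
    calc af τ c * (φ' y)⁻¹ * sh a * (φ' y * (af τ c)⁻¹)
        = af τ c * ((φ' y)⁻¹ * sh a * φ' y) * (af τ c)⁻¹ := by simp only [mul_assoc]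
      _ = _ := by rw [h4]
  exact congrArg Subtype.val h2

end group

end Pool.Agent.DP
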