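import Mathlib

/-!
# The dimension of a representation with many normalizing elements
-/

set_option autoImplicit false

namespace Pool.Agent.DP

open Equiv Module

/-- An operator of finite order over a field of characteristic zero: the generalized eigenspaces are
eigenspaces. -/
theorem tl_semi {k E : Type} [Field k] [CharZero k] [AddCommGroup E] [Module k E]
    [FiniteDimensional k E] (f : End k E) {m : ℕ} (hm : 0 < m) (hf : f ^ m = 1) (μ : k) :
    f.maxGenEigenspace μ = f.eigenspace μ := by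
  have h1 : (Polynomial.X ^ m - 1 : Polynomial k).Separable :=
    Polynomial.separable_X_pow_sub_C (1 : k) (by exact_mod_cast hm.ne') one_ne_zero
  have h2 : f.IsSemisimple := Module.End.isSemisimple_of_squarefree_aeval_eq_zero h1.squarefree (by
    rw [map_sub, map_pow, Polynomial.aeval_X, hf, map_one, sub_self])
  exact h2.isFinitelySemisimple.maxGenEigenspace_eq_eigenspace μ

theorem tl_main {Δ : Type} [Fintype Δ] {m : ℕ} [hm : Fact m.Prime] (hm2 : m ≠ 2) {Γ : Type}
    [Group Γ] (p : Multiplicative (Δ → ZMod m) →* Γ) {k E : Type} [Field k] [IsAlgClosed k]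
    [CharZero k] [AddCommGroup E] [Module k E] [FiniteDimensional k E] [Nontrivial E]
    (π : Representation k Γ E)
    (h1 : ∀ a : Δ → ZMod m, (∀ δ, a δ ≠ 0) → ∀ v, π (p (Multiplicative.ofAdd a)) v = v → v = 0)
    (h2 : ∀ (δ₀ δ : Δ) (c : (ZMod m)ˣ), ∃ (τ : Perm Δ) (ν : Γ), τ δ₀ = δ ∧ ∀ a : Δ → ZMod m,
      ν * p (Multiplicative.ofAdd a) * ν⁻¹ =
        p (Multiplicative.ofAdd fun δ => (c : ZMod m) * a (τ⁻¹ δ))) :
    Fintype.card Δ * (m - 1) ≤ finrank k E := by
  classical
  have hm0 : 0 < m := hm.out.pos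
  have hm3 : 2 < m := lt_of_le_of_ne hm.out.two_le (Ne.symm hm2)
  let f : Δ → End k E := fun δ => π (p (Multiplicative.ofAdd (Pi.single δ 1)))
  have hfm : ∀ δ, f δ ^ m = 1 := by
    intro δ
    change π (p (Multiplicative.ofAdd (Pi.single δ 1))) ^ m = 1
    rw [← map_pow, ← map_pow, ← ofAdd_nsmul]
    have : m • (Pi.single δ 1 : Δ → ZMod m) = 0 := by
      rw [← Pi.single_smul, nsmul_eq_mul, ZMod.natCast_self, zero_mul, Pi.single_zero]
    rw [this, ofAdd_zero, map_one, map_one]
  have hcomm : ∀ δ δ', Commute (f δ) (f δ') := by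
    intro δ δ'
    change π _ * π _ = π _ * π _
    rw [← map_mul π, ← map_mul π, ← map_mul p, ← map_mul p, mul_comm]
  have hmaps : ∀ (i j : Δ) (φ : k), Set.MapsTo (f i) ((f j).maxGenEigenspace φ)
      ((f j).maxGenEigenspace φ) := fun i j φ =>
    Module.End.mapsTo_maxGenEigenspace_of_comm (hcomm j i) φ
  -- a joint eigenvector
  obtain ⟨χ, v, hv0, hv⟩ : ∃ (χ : Δ → k) (v : E), v ≠ 0 ∧ ∀ δ, f δ v = χ δ • v := by
    have htop := Module.End.iSup_iInf_maxGenEigenspace_eq_top_of_forall_mapsTo f hmaps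
      fun i => Module.End.iSup_maxGenEigenspace_eq_top (f i)
    by_contra hcon
    push Not at hcon
    have hbot : ∀ χ : Δ → k, (⨅ i, (f i).maxGenEigenspace (χ i)) = ⊥ := by
      intro χ
      rw [Submodule.eq_bot_iff]
      intro v hv
      by_contra hv0
      obtain ⟨δ, hδ⟩ := hcon χ v hv0
      apply hδ
      have h3 := (Submodule.mem_iInf _).1 hv δ
      rw [tl_semi (f δ) hm0 (hfm δ)] at h3
      exact Module.End.mem_eigenspace_iff.1 h3
    rw [iSup_congr hbot, iSup_bot] at htop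
    exact bot_ne_top htop
  have hχm : ∀ δ, χ δ ^ m = 1 := by
    intro δ
    have h3 : ∀ i : ℕ, (f δ ^ i) v = χ δ ^ i • v := by
      intro i
      induction i with
      | zero => rw [pow_zero, pow_zero, one_smul]; rfl
      | succ i ih =>
        rw [pow_succ, Module.End.mul_apply, hv, map_smul, ih, smul_smul, pow_succ']
    have h4 := h3 m
    rw [hfm, Module.End.one_apply] at h4
    have h5 : (χ δ ^ m - 1) • v = 0 := by rw [sub_smul, one_smul, ← h4, sub_self]
    rcases smul_eq_zero.1 h5 with h6 | h6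
    · exact sub_eq_zero.1 h6
    · exact absurd h6 hv0
  have hsingle : ∀ (δ : Δ) (x : ZMod m),
      π (p (Multiplicative.ofAdd (Pi.single δ x))) v = χ δ ^ x.val • v := by
    intro δ x
    have h3 : (Pi.single δ x : Δ → ZMod m) = x.val • Pi.single δ 1 := by
      rw [← Pi.single_smul, nsmul_eq_mul, ZMod.natCast_zmod_val, mul_one]
    rw [h3, ofAdd_nsmul, map_pow, map_pow]
    generalize x.val = i
    induction i with
    | zero => rw [pow_zero, pow_zero, one_smul]; rfl
    | succ i ih =>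
      rw [pow_succ, Module.End.mul_apply]
      have h4 : π (p (Multiplicative.ofAdd (Pi.single δ 1))) v = χ δ • v := hv δ
      rw [h4, map_smul, ih, smul_smul, pow_succ']
  have hprod : ∀ (a : Δ → ZMod m) (s : Finset Δ),
      π (p (Multiplicative.ofAdd fun δ => if δ ∈ s then a δ else 0)) v =
        (∏ δ ∈ s, χ δ ^ (a δ).val) • v := by
    intro a s
    induction s using Finset.induction_on with
    | empty =>
      have h3 : (fun δ : Δ => if δ ∈ (∅ : Finset Δ) then a δ else 0) = 0 := by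
        funext δ
        simp
      rw [h3, ofAdd_zero, map_one, map_one, Finset.prod_empty, one_smul]
      rfl
    | insert δ s hδ ih =>
      have h3 : (fun δ' : Δ => if δ' ∈ insert δ s then a δ' else 0) =
          (fun δ' => if δ' ∈ s then a δ' else 0) + Pi.single δ (a δ) := by
        funext δ'
        rw [Pi.add_apply]
        by_cases h4 : δ' = δ
        · subst h4
          rw [if_pos (Finset.mem_insert_self _ _), if_neg hδ, zero_add, Pi.single_eq_same]
        · rw [Pi.single_eq_of_ne h4, add_zero]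
          simp [Finset.mem_insert, h4]
      rw [h3, ofAdd_add, map_mul, map_mul, Module.End.mul_apply, hsingle, map_smul, ih, smul_smul,
        Finset.prod_insert hδ]
  have hall : ∀ a : Δ → ZMod m,
      π (p (Multiplicative.ofAdd a)) v = (∏ δ, χ δ ^ (a δ).val) • v := by
    intro a
    have h3 := hprod a Finset.univ
    simpa using h3
  have hfull : ∀ a : Δ → ZMod m, (∀ δ, a δ ≠ 0) → ∏ δ, χ δ ^ (a δ).val ≠ 1 := by
    intro a ha h3
    refine hv0 (h1 a ha v ?_)
    rw [hall, h3, one_smul]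
  -- one of the characters is nontrivial
  obtain ⟨δ₀, hδ₀⟩ : ∃ δ₀, χ δ₀ ≠ 1 := by
    by_contra hcon
    push Not at hcon
    refine hfull (fun _ => 1) (fun _ => one_ne_zero) ?_
    apply Finset.prod_eq_one
    intro δ _
    rw [hcon, one_pow]
  have hζ : IsPrimitiveRoot (χ δ₀) m := by
    have h3 : orderOf (χ δ₀) ∣ m := orderOf_dvd_of_pow_eq_one (hχm δ₀)
    rcases (Nat.dvd_prime hm.out).1 h3 with h4 | h4
    · exact absurd (orderOf_eq_one_iff.1 h4) hδ₀
    · rw [← h4]
      exact IsPrimitiveRoot.orderOf _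
  -- the others are trivial
  have hone : ∀ δ, δ ≠ δ₀ → χ δ = 1 := by
    intro δ₁ hne
    by_contra hδ₁
    have hex : ∀ δ, ∃ i : ℕ, χ δ = χ δ₀ ^ i := by
      intro δ
      obtain ⟨i, -, hi⟩ := hζ.eq_pow_of_pow_eq_one (hχm δ)
      exact ⟨i, hi.symm⟩
    choose e he using hex
    have he1 : (e δ₁ : ZMod m) ≠ 0 := by
      intro h3
      rw [ZMod.natCast_eq_zero_iff] at h3
      exact hδ₁ (by rw [he δ₁]; exact (hζ.pow_eq_one_iff_dvd _).2 h3)
    have he0 : (e δ₀ : ZMod m) = 1 := by
      have h3 : χ δ₀ ^ e δ₀ = χ δ₀ ^ 1 := by rw [← he, pow_one]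
      have h4 := (IsOfFinOrder.pow_eq_pow_iff_modEq (x := χ δ₀)
        (isOfFinOrder_iff_pow_eq_one.2 ⟨m, hm0, hχm δ₀⟩)).1 h3
      rw [← hζ.eq_orderOf] at h4
      have h5 := (ZMod.natCast_eq_natCast_iff _ _ _).2 h4
      rw [h5, Nat.cast_one]
    let S : ZMod m := ∑ δ ∈ (Finset.univ.erase δ₀).erase δ₁, (e δ : ZMod m)
    have h20 : (2 : ZMod m) ≠ 0 := by
      intro h3
      have h4 : ((2 : ℕ) : ZMod m) = 0 := by exact_mod_cast h3
      rw [ZMod.natCast_eq_zero_iff] at h4
      exact absurd (Nat.le_of_dvd (by norm_num) h4) (by omega)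
    obtain ⟨a₁, ha₁, ha₀⟩ : ∃ a₁ : ZMod m, a₁ ≠ 0 ∧ -S - (e δ₁ : ZMod m) * a₁ ≠ 0 := by
      by_cases h3 : -S - (e δ₁ : ZMod m) * 1 = 0
      · refine ⟨2, h20, ?_⟩
        intro h4
        apply he1
        have h5 : (e δ₁ : ZMod m) = (-S - (e δ₁ : ZMod m) * 1) - (-S - (e δ₁ : ZMod m) * 2) := by
          ring
        rw [h5, h3, h4, sub_zero]
      · exact ⟨1, one_ne_zero, h3⟩
    let a : Δ → ZMod m := fun δ =>
      if δ = δ₀ then -S - (e δ₁ : ZMod m) * a₁ else if δ = δ₁ then a₁ else 1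
    have ha : ∀ δ, a δ ≠ 0 := by
      intro δ
      simp only [a]
      split_ifs
      · exact ha₀
      · exact ha₁
      · exact one_ne_zero
    refine hfull a ha ?_
    have h3 : ∏ δ, χ δ ^ (a δ).val = χ δ₀ ^ ∑ δ, e δ * (a δ).val := by
      rw [← Finset.prod_pow_eq_pow_sum]
      refine Finset.prod_congr rfl fun δ _ => ?_
      conv_lhs => rw [he δ, ← pow_mul]
    rw [h3, hζ.pow_eq_one_iff_dvd, ← ZMod.natCast_eq_zero_iff]
    push_cast
    simp only [ZMod.natCast_zmod_val]
    rw [← Finset.add_sum_erase Finset.univ _ (Finset.mem_univ δ₀),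
      ← Finset.add_sum_erase (Finset.univ.erase δ₀) _
        (Finset.mem_erase.2 ⟨hne, Finset.mem_univ δ₁⟩)]
    have h4 : ∑ δ ∈ (Finset.univ.erase δ₀).erase δ₁, (e δ : ZMod m) * a δ = S := by
      refine Finset.sum_congr rfl fun δ hδ => ?_
      rw [Finset.mem_erase, Finset.mem_erase] at hδ
      have h5 : a δ = 1 := by
        simp only [a]
        rw [if_neg hδ.2.1, if_neg hδ.1]
      rw [h5, mul_one]
    have h5 : a δ₀ = -S - (e δ₁ : ZMod m) * a₁ := if_pos rfl
    have h6 : a δ₁ = a₁ := (if_neg hne).trans (if_pos rfl)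
    rw [h4, h5, h6, he0]
    ring
  -- the other joint eigenvectors
  let J := Δ × (ZMod m)ˣ
  let Xc : J → (Δ → k) := fun j δ => if δ = j.1 then χ δ₀ ^ ((j.2⁻¹ : (ZMod m)ˣ) : ZMod m).val else 1
  have hvec : ∀ j : J, ∃ w : E, w ≠ 0 ∧ w ∈ ⨅ i, (f i).maxGenEigenspace (Xc j i) := by
    intro j
    obtain ⟨τ, ν, hτ, hν⟩ := h2 δ₀ j.1 j.2
    refine ⟨π ν v, ?_, ?_⟩
    · intro h3
      apply hv0
      have h4 : π ν⁻¹ (π ν v) = v := by
        rw [← Module.End.mul_apply, ← map_mul, inv_mul_cancel, map_one, Module.End.one_apply]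
      rw [← h4, h3, map_zero]
    · rw [Submodule.mem_iInf]
      intro δ'
      rw [tl_semi (f δ') hm0 (hfm δ'), Module.End.mem_eigenspace_iff]
      have h3 := hν (Pi.single (τ⁻¹ δ') ((j.2⁻¹ : (ZMod m)ˣ) : ZMod m))
      have h4 : (fun δ => (j.2 : ZMod m) *
          (Pi.single (τ⁻¹ δ') ((j.2⁻¹ : (ZMod m)ˣ) : ZMod m) : Δ → ZMod m) (τ⁻¹ δ)) =
          Pi.single δ' 1 := by
        funext δ
        by_cases h5 : δ = δ'
        · rw [h5, Pi.single_eq_same, Pi.single_eq_same, Units.mul_inv]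
        · rw [Pi.single_eq_of_ne h5, Pi.single_eq_of_ne (fun h6 => h5 (τ⁻¹.injective h6)), mul_zero]
      rw [h4, mul_inv_eq_iff_eq_mul] at h3
      change π (p (Multiplicative.ofAdd (Pi.single δ' 1))) (π ν v) = _
      rw [← Module.End.mul_apply, ← map_mul, ← h3, map_mul, Module.End.mul_apply, hsingle, map_smul]
      congr 1
      simp only [Xc]
      by_cases h5 : δ' = j.1
      · have h6 : τ⁻¹ δ' = δ₀ := by
          rw [h5, ← hτ]
          exact τ.symm_apply_apply δ₀
        rw [if_pos h5, h6]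
      · have h6 : τ⁻¹ δ' ≠ δ₀ := by
          intro h7
          apply h5
          rw [← hτ, ← h7]
          exact (τ.apply_symm_apply δ').symm
        rw [if_neg h5, hone _ h6, one_pow]
  choose w hw0 hw using hvec
  have hXc : Function.Injective Xc := by
    rintro ⟨δ, c⟩ ⟨δ', c'⟩ h3
    have hval : ∀ c : (ZMod m)ˣ, 0 < ((c : (ZMod m)ˣ) : ZMod m).val := by
      intro c
      rw [Nat.pos_iff_ne_zero, Ne, ZMod.val_eq_zero]
      exact c.ne_zero
    have h4 := congrFun h3 δ
    simp only [Xc, if_true] at h4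
    by_cases h5 : δ = δ'
    · rw [if_pos h5] at h4
      have h6 := hζ.pow_inj (ZMod.val_lt _) (ZMod.val_lt _) h4
      have h7 := ZMod.val_injective m h6
      have h8 : c⁻¹ = c'⁻¹ := Units.ext h7
      rw [h5, inv_injective h8]
    · rw [if_neg h5] at h4
      have h6 := (hζ.pow_eq_one_iff_dvd _).1 h4
      exact absurd (Nat.le_of_dvd (hval _) h6) (not_le.2 (ZMod.val_lt _))
  have hind := Module.End.independent_iInf_maxGenEigenspace_of_forall_mapsTo f hmaps
  have hind2 : iSupIndep fun j : J => ⨅ i, (f i).maxGenEigenspace (Xc j i) := hind.comp hXc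
  have hli : LinearIndependent k w := hind2.linearIndependent _ hw hw0
  have hcard := hli.fintype_card_le_finrank
  rw [Fintype.card_prod, ZMod.card_units_eq_totient, Nat.totient_prime hm.out] at hcard
  exact hcard

end Pool.Agent.DP
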