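import Pool.Agent.Lib_helper46.DP.PR
import Pool.Agent.Lib_helper46.DP.TA
import Pool.Agent.Lib_helper46.DP.TL

/-!
# Subquotients with finite image
-/

set_option autoImplicit false

namespace Pool.Agent.DP

open NumberField Polynomial Topology Pool.Agent.TT Pool.Agent.TB Pool.Agent.TF Pool.Agent.UI
open Pool.Agent.TU Pool.Agent.RF Pool.Agent.UB

section lin

/-- An eigenvalue on a subquotient. -/
theorem eq_root {k V : Type} [Field k] [AddCommGroup V] [Module k V] [FiniteDimensional k V]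
    (f : Module.End k V) (A : Submodule k V) (hA : ∀ x ∈ A, f x ∈ A) {v : V} (hv : f v - v ∈ A)
    (hvA : v ∉ A) : f.charpoly.IsRoot 1 := by
  rw [← Module.End.hasEigenvalue_iff_isRoot_charpoly]
  by_contra hcon
  let F : Module.End k V := f - 1
  have hF : ∀ x, F x = f x - x := fun x => rfl
  have hker : LinearMap.ker F = ⊥ := by
    by_contra h
    apply hcon
    rw [Module.End.hasEigenvalue_iff, Module.End.eigenspace_def, one_smul]
    exact h
  have hinj : Function.Injective F := LinearMap.ker_eq_bot.1 hker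
  have hmap : A.map F = A := by
    refine Submodule.eq_of_le_of_finrank_le ?_ ?_
    · rintro _ ⟨x, hx, rfl⟩
      rw [hF]
      exact A.sub_mem (hA x hx) hx
    · exact (LinearEquiv.finrank_eq (Submodule.equivMapOfInjective F hinj A)).le
  have h1 : F v ∈ A.map F := by
    rw [hmap, hF]
    exact hv
  obtain ⟨x, hx, hxv⟩ := h1
  rw [hinj hxv] at hx
  exact hvA hx

/-- The representation on a subquotient. -/
noncomputable def subquo {G k V : Type} [Group G] [Field k] [AddCommGroup V] [Module k V]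
    (π : Representation k G V) (A B : Submodule k V) (hA : ∀ t, ∀ x ∈ A, π t x ∈ A)
    (hB : ∀ t, ∀ x ∈ B, π t x ∈ B) : Representation k G (B ⧸ A.comap B.subtype) where
  toFun g := (A.comap B.subtype).mapQ (A.comap B.subtype) ((π g).restrict (hB g))
    (fun x hx => hA g _ hx)
  map_one' := by
    refine Submodule.linearMap_qext _ (LinearMap.ext fun x => ?_)
    change Submodule.Quotient.mk _ = Submodule.Quotient.mk _
    congr 1
    apply Subtype.ext
    change π 1 x.1 = x.1
    rw [map_one]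
    rfl
  map_mul' g h := by
    refine Submodule.linearMap_qext _ (LinearMap.ext fun x => ?_)
    change Submodule.Quotient.mk _ = Submodule.Quotient.mk _
    congr 1
    apply Subtype.ext
    change π (g * h) x.1 = π g (π h x.1)
    rw [map_mul]
    rfl

theorem subquo_mk {G k V : Type} [Group G] [Field k] [AddCommGroup V] [Module k V]
    (π : Representation k G V) (A B : Submodule k V) (hA : ∀ t, ∀ x ∈ A, π t x ∈ A)
    (hB : ∀ t, ∀ x ∈ B, π t x ∈ B) (g : G) (x : B) :
    subquo π A B hA hB g ((A.comap B.subtype).mkQ x) =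
      (A.comap B.subtype).mkQ ⟨π g x.1, hB g _ x.2⟩ := rfl

end lin

section abstract

open Equiv MulAction

/-- **The dimension of a subquotient with finite image.** -/
theorem eq_dim {G Ω Δ k V : Type} [Group G] [MulAction G Ω] [MulAction G Δ] [Finite Ω] [Fintype Δ]
    [Field k] [IsAlgClosed k] [CharZero k] [AddCommGroup V] [Module k V] [FiniteDimensional k V]
    (π : Representation k G V) {A B : Submodule k V} (hA : ∀ t, ∀ x ∈ A, π t x ∈ A)
    (hB : ∀ t, ∀ x ∈ B, π t x ∈ B) (hAB : ¬B ≤ A) (M : Subgroup G) [M.Normal]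
    [M.FiniteIndex] (hM : ∀ g ∈ M, ∀ x ∈ B, π g x - x ∈ A) {f : Ω → Δ}
    (hf : ∀ (g : G) x, f (g • x) = g • f x) (htr : ∀ δ δ' : Δ, ∃ g : G, g • δ = δ') {m : ℕ}
    [hm : Fact m.Prime] (hm2 : m ≠ 2) (hcard : ∀ δ : Δ, Nat.card {x // f x = δ} = m)
    (hall : ∀ τ : Perm Ω, (∀ x, f (τ x) = f x) → ∃ g : G, toPermHom G Ω g = τ) {q : ℕ}
    [Fact q.Prime] (hqm : m ≠ q) (hK : ∀ g : G, (∀ x : Ω, g • x = x) → ∃ s : ℕ, g ^ q ^ s ∈ M)
    (hfull : ∀ g : G, (∀ δ : Δ, g • δ = δ) → (∀ x : Ω, g ^ m • x = x) →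
      (∀ (x : Ω) (i : ℕ), 0 < i → i < m → g ^ i • x ≠ x) → ∀ v ∈ B, π g v - v ∈ A → v ∈ A) :
    Fintype.card Δ * (m - 1) ≤ Module.finrank k (B ⧸ A.comap B.subtype) := by
  classical
  -- coordinates
  have heq : ∀ δ : Δ, Nonempty ({x // f x = δ} ≃ ZMod m) := fun δ => by
    rw [← Finite.card_eq, hcard, Nat.card_zmod]
  let ed : ∀ δ : Δ, {x // f x = δ} ≃ ZMod m := fun δ => (heq δ).some
  let e : Ω ≃ Δ × ZMod m := (Equiv.sigmaFiberEquiv f).symm.trans
    ((Equiv.sigmaCongrRight ed).trans (Equiv.sigmaEquivProd Δ (ZMod m)))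
  have he : ∀ x, (e x).1 = f x := fun x => rfl
  let Φ : G →* Perm (Δ × ZMod m) :=
    (e.permCongrHom : Perm Ω →* Perm (Δ × ZMod m)).comp (toPermHom G Ω)
  have hΦ : ∀ g y, Φ g y = e (g • e.symm y) := fun g y => rfl
  have hΦ1 : ∀ g y, (Φ g y).1 = g • y.1 := by
    intro g y
    rw [hΦ, he, hf, ← he, e.apply_symm_apply]
  have hallΦ : ∀ τ : Perm (Δ × ZMod m), (∀ y, (τ y).1 = y.1) → ∃ g : G, Φ g = τ := by
    intro τ hτ
    obtain ⟨g, hg⟩ := hall (e.permCongr.symm τ) (by
      intro x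
      rw [← he, ← he]
      change (e (e.symm (τ (e x)))).1 = _
      rw [e.apply_symm_apply, hτ])
    refine ⟨g, ?_⟩
    change e.permCongr (toPermHom G Ω g) = τ
    rw [hg, Equiv.apply_symm_apply]
  have hΦfix : ∀ g, Φ g = 1 → ∀ x : Ω, g • x = x := by
    intro g hg x
    have h1 : Φ g (e x) = e x := by rw [hg]; rfl
    rw [hΦ, e.symm_apply_apply] at h1
    exact e.injective h1
  let M₁ : Subgroup G := M ⊓ Φ.ker
  have hM₁ : M₁.Normal := inferInstance
  have hfi : M₁.FiniteIndex := inferInstance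
  have hfin : Finite (G ⧸ M₁) := inferInstance
  let φ : G ⧸ M₁ →* Perm (Δ × ZMod m) := QuotientGroup.lift M₁ Φ inf_le_right
  let ρ : Representation k (G ⧸ M₁) (B ⧸ A.comap B.subtype) :=
    QuotientGroup.lift M₁ (subquo π A B hA hB) (by
      intro g hg
      rw [MonoidHom.mem_ker]
      refine Submodule.linearMap_qext _ (LinearMap.ext fun x => ?_)
      change (A.comap B.subtype).mkQ _ = (A.comap B.subtype).mkQ _
      rw [← sub_eq_zero, ← map_sub, Submodule.mkQ_apply, Submodule.Quotient.mk_eq_zero]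
      exact hM g hg.1 x.1 x.2)
  have hφmk : ∀ g : G, φ (QuotientGroup.mk g) = Φ g := fun g => rfl
  have hρmk : ∀ g : G, ρ (QuotientGroup.mk g) = subquo π A B hA hB g := fun g => rfl
  obtain ⟨p, hp, hpn⟩ := ta_section (m := m) hqm φ (by
    intro γ hγ
    obtain ⟨g, rfl⟩ := QuotientGroup.mk_surjective γ
    rw [hφmk] at hγ
    obtain ⟨s, hs⟩ := hK g (hΦfix g hγ)
    refine ⟨s, ?_⟩
    rw [← QuotientGroup.mk_pow, QuotientGroup.eq_one_iff]
    have h1 : g ^ q ^ s ∈ Φ.ker := by rw [MonoidHom.mem_ker, map_pow, hγ, one_pow]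
    exact ⟨hs, h1⟩) (by
    intro a
    obtain ⟨g, hg⟩ := hallΦ (sh a) fun y => rfl
    exact ⟨QuotientGroup.mk g, hg⟩)
  have hntr : Nontrivial (B ⧸ A.comap B.subtype) := by
    rw [Submodule.Quotient.nontrivial_iff]
    intro h
    apply hAB
    intro x hx
    have h1 : (⟨x, hx⟩ : B) ∈ A.comap B.subtype := by
      rw [h]
      exact Submodule.mem_top
    exact h1
  refine tl_main hm2 p ρ ?_ ?_
  · intro a ha v hv
    obtain ⟨g, hg⟩ := QuotientGroup.mk_surjective (p (Multiplicative.ofAdd a))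
    obtain ⟨w, rfl⟩ := Submodule.mkQ_surjective _ v
    have hgφ : Φ g = sh a := by
      rw [← hφmk, hg, hp]
      rfl
    rw [← hg, hρmk, subquo_mk, ← sub_eq_zero, ← map_sub, Submodule.mkQ_apply,
      Submodule.Quotient.mk_eq_zero] at hv
    rw [Submodule.mkQ_apply, Submodule.Quotient.mk_eq_zero]
    have hpow : ∀ (i : ℕ) (y : Δ × ZMod m), Φ (g ^ i) y = (y.1, y.2 + i * a y.1) := by
      intro i
      induction i with
      | zero => intro y; rw [pow_zero, map_one]; simp
      | succ i ih =>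
        intro y
        rw [pow_succ', map_mul, Perm.mul_apply, ih, hgφ, sh_apply]
        simp only
        congr 1
        push_cast
        ring
    refine hfull g ?_ ?_ ?_ w.1 w.2 hv
    · intro δ
      have h1 := hΦ1 g (δ, 0)
      rw [hgφ, sh_apply] at h1
      exact h1.symm
    · intro x
      have h1 := hpow m (e x)
      rw [ZMod.natCast_self, zero_mul, add_zero, hΦ, e.symm_apply_apply] at h1
      exact e.injective h1
    · intro x i hi him h1
      have h2 := hpow i (e x)
      rw [hΦ, e.symm_apply_apply, h1] at h2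
      have h3 := congrArg Prod.snd h2
      simp only at h3
      have h4 : (i : ZMod m) * a (e x).1 = 0 := by
        have h5 : (e x).2 + (i : ZMod m) * a (e x).1 = (e x).2 + 0 := by rw [add_zero, ← h3]
        exact add_left_cancel h5
      rcases mul_eq_zero.1 h4 with h5 | h5
      · rw [ZMod.natCast_eq_zero_iff] at h5
        exact absurd (Nat.le_of_dvd hi h5) (not_le.2 him)
      · exact ha _ h5
  · intro δ₀ δ c
    obtain ⟨g, hg⟩ := htr δ₀ δ
    let τ : Perm Δ := toPermHom G Δ g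
    obtain ⟨g', hg'⟩ := hallΦ (af τ c * (Φ g)⁻¹) (by
      intro y
      obtain ⟨z, rfl⟩ := (Φ g).surjective y
      rw [Perm.mul_apply]
      have h1 : (Φ g)⁻¹ ((Φ g) z) = z := (Φ g).symm_apply_apply z
      rw [h1, af_apply, hΦ1]
      rfl)
    obtain ⟨ν, hν⟩ := hpn (QuotientGroup.mk (g' * g)) τ c (by
      rw [hφmk, map_mul, hg', inv_mul_cancel_right])
    exact ⟨τ, ν, hg, hν⟩

end abstract

end Pool.Agent.DP
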