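import Pool.Agent.Lib_helper46.DP.FN

/-!
# The double planes `y ^ 2 = D(t) (h(x) - t)`: the main theorem
-/

set_option autoImplicit false

namespace Pool.Agent.DP

open NumberField Polynomial Topology Pool.Agent.TT Pool.Agent.TB Pool.Agent.TF Pool.Agent.UI
open Pool.Agent.TU Pool.Agent.RF Pool.Agent.UB

section cycles

open Equiv MulAction

/-- An element all of whose cycles on `Ω` have the length `m`. -/
theorem em_full {G Ω Δ : Type} [Group G] [MulAction G Ω] [MulAction G Δ] [Finite Ω]
    {f : Ω → Δ} (hf : ∀ (g : G) x, f (g • x) = g • f x) (hsurj : Function.Surjective f) {m : ℕ}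
    [hm : Fact m.Prime] (hcard : ∀ δ : Δ, Nat.card {x // f x = δ} = m)
    (hall : ∀ τ : Perm Ω, (∀ x, f (τ x) = f x) → ∃ g : G, toPermHom G Ω g = τ) :
    ∃ g : G, (∀ δ : Δ, g • δ = δ) ∧ (∀ x : Ω, g ^ m • x = x) ∧
      ∀ (x : Ω) (i : ℕ), 0 < i → i < m → g ^ i • x ≠ x := by
  classical
  have heq : ∀ δ : Δ, Nonempty ({x // f x = δ} ≃ ZMod m) := fun δ => by
    rw [← Finite.card_eq, hcard, Nat.card_zmod]
  let ed : ∀ δ : Δ, {x // f x = δ} ≃ ZMod m := fun δ => (heq δ).some
  let e : Ω ≃ Δ × ZMod m := (Equiv.sigmaFiberEquiv f).symm.trans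
    ((Equiv.sigmaCongrRight ed).trans (Equiv.sigmaEquivProd Δ (ZMod m)))
  have he : ∀ x, (e x).1 = f x := fun x => rfl
  obtain ⟨g, hg⟩ := hall (e.permCongr.symm (sh fun _ => 1)) (by
    intro x
    rw [← he, ← he]
    change (e (e.symm (sh (fun _ => 1) (e x)))).1 = _
    rw [e.apply_symm_apply]
    rfl)
  have hgx : ∀ x : Ω, e (g • x) = ((e x).1, (e x).2 + 1) := by
    intro x
    have h1 : g • x = e.symm (sh (fun _ => 1) (e x)) := congrArg (fun τ : Perm Ω => τ x) hg
    rw [h1, e.apply_symm_apply]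
    rfl
  have hpow : ∀ (i : ℕ) (x : Ω), e (g ^ i • x) = ((e x).1, (e x).2 + i) := by
    intro i
    induction i with
    | zero => intro x; simp
    | succ i ih =>
      intro x
      rw [pow_succ', mul_smul, hgx, ih]
      push_cast
      rw [add_assoc]
  refine ⟨g, ?_, ?_, ?_⟩
  · intro δ
    obtain ⟨x, rfl⟩ := hsurj δ
    rw [← hf, ← he, hgx]
    exact he x
  · intro x
    apply e.injective
    rw [hpow, ZMod.natCast_self, add_zero]
  · intro x i hi him h1
    have h2 := hpow i x
    rw [h1] at h2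
    have h3 : (e x).2 + (i : ZMod m) = (e x).2 + 0 := by
      rw [add_zero]
      exact (congrArg Prod.snd h2).symm
    have h4 := add_left_cancel h3
    rw [ZMod.natCast_eq_zero_iff] at h4
    exact absurd (Nat.le_of_dvd hi h4) (not_le.2 him)

end cycles

section final

variable {K : Type} [Field K] [NumberField K] [Algebra K Qbar] {p a : ℕ} [hp : Fact p.Prime]
  {ζ : 𝓞 K} {D h : (𝓞 K)[X]}

/-- If all roots of `f` in one embedding are `e`-th roots of unity, this is true in any other one. -/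
theorem em_transfer {E k₁ k₂ : Type} [Field E] [Field k₁] [Field k₂] [IsAlgClosed k₁]
    (i₁ : E →+* k₁) (i₂ : E →+* k₂) {f : E[X]} (hf : f ≠ 0) {e : ℕ}
    (h : ∀ x : k₁, (f.map i₁).IsRoot x → x ^ e = 1) (x : k₂) (hx : (f.map i₂).IsRoot x) :
    x ^ e = 1 := by
  classical
  have hf1 : f.map i₁ ≠ 0 := (Polynomial.map_ne_zero_iff i₁.injective).2 hf
  have h1 : f.map i₁ ∣ ((X ^ e - 1 : E[X]) ^ f.natDegree).map i₁ := by
    by_cases h0 : (X ^ e - 1 : E[X]) = 0
    · by_cases h2 : f.natDegree = 0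
      · -- no roots
        have h3 : (f.map i₁).natDegree = 0 := by rw [natDegree_map, h2]
        have h4 : IsUnit (f.map i₁) := by
          rw [Polynomial.isUnit_iff_degree_eq_zero, degree_eq_natDegree hf1, h3]
          rfl
        exact h4.dvd
      · rw [h0, zero_pow h2, Polynomial.map_zero]
        exact dvd_zero _
    · have h2 : (X ^ e - 1 : k₁[X]) ≠ 0 := by
        have h3 : (X ^ e - 1 : E[X]).map i₁ ≠ 0 := (Polynomial.map_ne_zero_iff i₁.injective).2 h0
        simpa using h3
      have h3 : ((X ^ e - 1 : E[X]) ^ f.natDegree).map i₁ = (X ^ e - 1 : k₁[X]) ^ f.natDegree := by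
        simp
      rw [h3]
      refine (IsAlgClosed.splits (f.map i₁)).dvd_of_roots_le_roots hf1 ?_
      rw [roots_pow, Multiset.le_iff_count]
      intro y
      rw [Multiset.count_nsmul]
      by_cases hy : y ∈ (f.map i₁).roots
      · have h4 : y ^ e = 1 := h y ((mem_roots hf1).1 hy)
        have h5 : y ∈ (X ^ e - 1 : k₁[X]).roots := by
          rw [mem_roots h2]
          simp [h4]
        have h6 : 1 ≤ (X ^ e - 1 : k₁[X]).roots.count y := Multiset.one_le_count_iff_mem.2 h5
        calc Multiset.count y (f.map i₁).roots ≤ Multiset.card (f.map i₁).roots :=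
              Multiset.count_le_card _ _
          _ ≤ (f.map i₁).natDegree := card_roots' _
          _ = f.natDegree := natDegree_map _
          _ ≤ f.natDegree * (X ^ e - 1 : k₁[X]).roots.count y := Nat.le_mul_of_pos_right _ h6
      · rw [Multiset.count_eq_zero_of_notMem hy]
        exact Nat.zero_le _
  rw [Polynomial.map_dvd_map'] at h1
  have h2 : (f.map i₂).eval x = 0 := hx
  obtain ⟨g, hg⟩ := h1
  have h3 := congrArg (fun F : E[X] => (F.map i₂).eval x) hg
  simp only [Polynomial.map_mul, Polynomial.map_pow, Polynomial.map_sub, map_X, Polynomial.map_one,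
    eval_mul, eval_pow, eval_sub, eval_X, eval_one, h2, zero_mul] at h3
  have h5 : f.natDegree ≠ 0 := by
    intro h4
    rw [h4, pow_zero] at h3
    exact one_ne_zero h3
  exact sub_eq_zero.1 ((pow_eq_zero_iff h5).1 h3)

/-- The eigenvalues of a multiple of a matrix. -/
theorem em_smul {C : Type} [Field C] {n : ℕ} (A : Matrix (Fin n) (Fin n) C) {c y : C} (hc : c ≠ 0)
    (h : (c • A).charpoly.IsRoot y) : A.charpoly.IsRoot (c⁻¹ * y) := by
  rw [← Matrix.charpoly_toLin', ← Module.End.hasEigenvalue_iff_isRoot_charpoly] at h ⊢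
  obtain ⟨v, hv⟩ := h.exists_hasEigenvector
  refine Module.End.hasEigenvalue_of_hasEigenvector (x := v) ⟨?_, hv.2⟩
  rw [Module.End.mem_eigenspace_iff]
  have h1 := hv.apply_eq_smul
  rw [map_smul, LinearMap.smul_apply] at h1
  rw [mul_smul, ← h1, smul_smul, inv_mul_cancel₀ hc, one_smul]

/-- **The main theorem.** -/
theorem em_main (hζ : IsPrimitiveRoot ζ (p ^ a)) (ha : 0 < a) (hD : D.Monic) (hh : h.Monic)
    (hm : h.natDegree.Prime) (hm2 : h.natDegree ≠ 2) (hmp : h.natDegree ≠ p)
    (hirr : Irreducible ((D.comp h).map (algebraMap (𝓞 K) K)))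
    (hA : HasTransposition (D.comp h)) (ip : K →+* ℂ_[p]) {d : ℕ} (R : Rep K p d)
    (hR : SumRealization R ip (p ^ a) ζ (smS D h)) {r : ℕ} [Fact r.Prime] (ir : K →+* ℂ_[r])
    {d' : ℕ} (X : Rep K r d') (hX : SumRealization X ir (p ^ a) ζ (smS D h))
    (g₀ : Qbar ≃ₐ[K] Qbar) (x₀ : ℂ_[r]) (hx₀ : (cycC r g₀ • X g₀).charpoly.IsRoot x₀)
    (hx₀' : ∀ n : ℕ, 0 < n → x₀ ^ n ≠ 1) {ℓ : ℕ} [Fact ℓ.Prime] (il : K →+* PadicAlgCl ℓ)
    {V : Type} [AddCommGroup V] [Module (PadicAlgCl ℓ) V] [Module.Finite (PadicAlgCl ℓ) V]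
    (π : Representation (PadicAlgCl ℓ) (Qbar ≃ₐ[K] Qbar) V)
    (hπ : SumTraces (fun σ => LinearMap.trace (PadicAlgCl ℓ) V (π σ)) il (p ^ a) ζ (smS D h)) :
    Pool.Agent.RF.NoTateClasses π 1 := by
  classical
  have hac : Algebra.IsAlgebraic ℚ Qbar := AlgebraicClosure.isAlgebraic ℚ
  have hgal := Pool.Agent.TE.isGalois_Qbar (K := K)
  have hmF : Fact h.natDegree.Prime := ⟨hm⟩
  have hpm : ¬p ∣ h.natDegree := fun h1 => hmp ((Nat.prime_dvd_prime_iff_eq hp.out hm).1 h1).symm
  have hDh : (D.comp h).Monic := Monic.comp hD hh hm.ne_zero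
  have hfin1 := fb_finite hD
  have hfin2 := fb_finite hDh
  have := Fintype.ofFinite (Roots D)
  let e₁ : Roots (D.comp h) ≃ Fin (Nat.card (Roots (D.comp h))) := Finite.equivFin _
  let e₂ : Roots D ≃ Fin (Nat.card (Roots D)) := Finite.equivFin _
  have hN := fn_card hD hDh p e₁ e₂
  have hrel := fun g => fn_rel hζ ha hR.continuous hR.traces hN g
  have hsurj : Function.Surjective (blockMap D h) := by
    intro t
    have h1 := fn_fibre hh hm.ne_zero hirr t
    have h2 : Nonempty {x : Roots (D.comp h) // blockMap D h x = t} := by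
      by_contra hcon
      rw [not_nonempty_iff] at hcon
      rw [Nat.card_of_isEmpty] at h1
      exact hm.ne_zero h1.symm
    obtain ⟨x⟩ := h2
    exact ⟨x.1, x.2⟩
  have hsame : ∀ {g t : Qbar ≃ₐ[K] Qbar}, (∀ x : Roots (D.comp h), t • x = g • x) →
      residuallyOne (R t) = residuallyOne (R g) := by
    intro g t hgt
    obtain ⟨h1, h2⟩ := fn_same (p := p) e₁ e₂ hsurj hgt
    have h3 := hrel g
    have h4 := hrel t
    rw [h1, h2] at h4
    omega
  -- the dimension
  have hcardmul := fn_mul hD hh hm.ne_zero hirr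
  have hres1 : residuallyOne (R 1) = d := by rw [map_one, pr_res_one]
  have hd : d + Nat.card (Roots D) = Nat.card (Roots D) * h.natDegree := by
    have h1 := hrel 1
    rw [hres1, map_one, map_one, pr_res_one, pr_res_one, hcardmul] at h1
    exact h1
  have hd' : d = Fintype.card (Roots D) * (h.natDegree - 1) := by
    rw [Nat.mul_sub_one, ← Nat.card_eq_fintype_card]
    omega
  have hfixed : ∀ g : Qbar ≃ₐ[K] Qbar, (∀ x : Roots (D.comp h), g • x = x) →
      residuallyOne (R g) = d := by
    intro g hg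
    exact (hsame fun x => by rw [hg, one_smul]).trans hres1
  have hfull : ∀ g : Qbar ≃ₐ[K] Qbar, (∀ δ : Roots D, g • δ = δ) →
      (∀ x : Roots (D.comp h), g ^ h.natDegree • x = x) →
      (∀ (x : Roots (D.comp h)) (i : ℕ), 0 < i → i < h.natDegree → g ^ i • x ≠ x) →
      residuallyOne (R g) = 0 := by
    intro g h1 h2 h3
    have h4 := hrel g
    rw [pr_res e₁ g hpm hcardmul h2 h3, pr_pow p e₂ g h1, pr_res_one] at h4
    omega
  -- the twisted representations
  set π' := Pool.Agent.UB.twist π 1 tv_cyc_mul tv_cyc_one with hπ'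
  set R' := Pool.Agent.TBL.twist R 1 with hR'
  have hcomp : Compatible ip il R' π' := fn_comp (smS D h) ip R hR.traces il π hπ 1
  have hcont : ∀ {q : ℕ} [Fact q.Prime] {n : ℕ}
      (X : (Qbar ≃ₐ[K] Qbar) →* Matrix (Fin n) (Fin n) ℂ_[q]), Continuous X →
        Continuous (Pool.Agent.TBL.twist X 1) := by
    intro q _ n X hX
    change Continuous (fun g => cycC q g ^ 1 • X g)
    exact ((cycC_continuous (p := q) (K := K)).pow 1).smul hX
  have hR'c := hcont R hR.continuous
  have hdimV : Module.finrank (PadicAlgCl ℓ) V = d := by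
    obtain ⟨t, -, f, hf1, hf2⟩ := ui_dense hcomp 1 Set.univ Filter.univ_mem
    rw [← LinearMap.charpoly_natDegree (π' t), hf2, natDegree_map, ← natDegree_map ip, ← hf1,
      Matrix.charpoly_natDegree_eq_dim, Fintype.card_fin]
  intro H hH W₁ W₂ hW hTate
  by_contra hne
  obtain ⟨N', hN'⟩ := ProfiniteGrp.exist_openNormalSubgroup_sub_open_nhds_of_one hH H.one_mem
  let N : Subgroup (Qbar ≃ₐ[K] Qbar) := N'.toSubgroup
  have hNn : N.Normal := N'.isNormal'
  have hNo : IsOpen (N : Set (Qbar ≃ₐ[K] Qbar)) := N'.isOpen'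
  have hfi : N.FiniteIndex :=
    haveI := N.quotient_finite_of_isOpen hNo
    Subgroup.finiteIndex_of_finite_quotient
  have hTN : ∀ σ ∈ N, ∀ x ∈ W₂, π' σ x - x ∈ W₁ := fun σ hσ => hTate σ (hN' hσ)
  have hall := fn_all hD hh hm hirr hA
  obtain ⟨u, hu1, hu2, hu3⟩ := em_full fn_block hsurj (fn_fibre hh hm.ne_zero hirr) hall
  -- a stable subquotient
  obtain ⟨A, B, hA, hB, hAB, hBA, hNAB⟩ : ∃ A B : Submodule (PadicAlgCl ℓ) V,
      (∀ t, ∀ x ∈ A, π' t x ∈ A) ∧ (∀ t, ∀ x ∈ B, π' t x ∈ B) ∧ A ≤ B ∧ ¬B ≤ A ∧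
      ∀ g ∈ N, ∀ x ∈ B, π' g x - x ∈ A := by
    by_contra hcon
    push Not at hcon
    have huHT : u ∈ HT π' N := by
      intro A B hAB hA hB hNAB x hx
      by_cases hBA : B ≤ A
      · exact A.sub_mem (hA _ _ (hBA hx)) (hBA hx)
      · obtain ⟨g, hg, y, hy, hgy⟩ := hcon A B hA hB hAB hBA
        exact absurd (hNAB g hg y hy) hgy
    have h1 := ui_bound hR'c hcomp N hNo huHT W₁ W₂ hW hTN
    have h2 := fn_mult hζ ha R 1 u
    rw [hfull u hu1 hu2 hu3] at h2
    exact hne (Submodule.eq_of_le_of_finrank_le hW (by omega))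
  obtain ⟨M, hMn, hNM, hM⟩ := ht_group π' N
  have hMfi : M.FiniteIndex := Subgroup.finiteIndex_of_le hNM
  have hMAB : ∀ g ∈ M, ∀ x ∈ B, π' g x - x ∈ A := by
    intro g hg
    have h1 : g ∈ HT π' N := by
      rw [← hM]
      exact hg
    exact h1 A B hAB hA hB hNAB
  have hdim := eq_dim π' hA hB hBA M hMAB fn_block (by
      intro δ δ'
      obtain ⟨x, rfl⟩ := hsurj δ
      obtain ⟨y, rfl⟩ := hsurj δ'
      obtain ⟨g, hg⟩ := fn_trans hirr x y
      exact ⟨g, by rw [← fn_block, hg]⟩) hm2 (fn_fibre hh hm.ne_zero hirr) hall (q := p) hmp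
    (by
      -- elements that fix all roots
      intro g hg
      set e := N.index with he
      have he0 : e ≠ 0 := hfi.index_ne_zero
      obtain ⟨s, o, ho, heo⟩ := Nat.exists_eq_pow_mul_and_not_dvd he0 p hp.out.ne_one
      refine ⟨s, ?_⟩
      set g' := g ^ p ^ s with hg'
      have ho0 : 0 < o := Nat.pos_of_ne_zero fun h0 => ho (h0 ▸ dvd_zero p)
      have hg'N : g' ^ o ∈ N := by
        rw [hg', ← pow_mul, ← heo]
        exact N.pow_index_mem g
      have hg'fix : ∀ x : Roots (D.comp h), g' • x = x := by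
        have h1 : ∀ (i : ℕ) (x : Roots (D.comp h)), g ^ i • x = x := by
          intro i
          induction i with
          | zero => intro x; rw [pow_zero, one_smul]
          | succ i ih => intro x; rw [pow_succ, mul_smul, hg, ih]
        exact h1 _
      have hU1 : {y : Qbar ≃ₐ[K] Qbar | g'⁻¹ * y ∈ N} ∈ 𝓝 g' :=
        (hNo.preimage (continuous_const_mul g'⁻¹)).mem_nhds (by
          show g'⁻¹ * g' ∈ N
          rw [inv_mul_cancel]
          exact N.one_mem)
      have hU2 := tg_nhds g' (fun x : Roots (D.comp h) => x.1)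
      obtain ⟨t, ⟨htN, htx⟩, f, hf1, hf2⟩ := ui_dense hcomp g' _ (Filter.inter_mem hU1 hU2)
      have htfix : ∀ x : Roots (D.comp h), t • x = x := by
        intro x
        rw [← hg'fix x]
        conv_lhs => rw [hg'fix x]
        exact Subtype.ext (htx x)
      have htN' : t ^ o ∈ N := by
        have h1 : (QuotientGroup.mk t : (Qbar ≃ₐ[K] Qbar) ⧸ N) = QuotientGroup.mk g' :=
          (QuotientGroup.eq.2 htN).symm
        rw [← QuotientGroup.eq_one_iff, QuotientGroup.mk_pow, h1, ← QuotientGroup.mk_pow,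
          QuotientGroup.eq_one_iff]
        exact hg'N
      have ht : t ∈ HT π' N := by
        refine ui_one π' N t ho0 htN' ?_
        rw [hf2]
        refine ui_transfer ip il f ho0 ?_
        intro y hy hroot
        rw [← hf1] at hroot
        -- all eigenvalues of `R t` are congruent to `1`
        have hall1 : ∀ x ∈ (R t).charpoly.roots, ‖x - 1‖ < 1 := by
          have h1 := hfixed t htfix
          have h2 : Multiset.card (R t).charpoly.roots = d := by
            rw [IsAlgClosed.card_roots_eq_natDegree, Matrix.charpoly_natDegree_eq_dim,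
              Fintype.card_fin]
          have h3 : (R t).charpoly.roots.filter (fun x => ‖x - 1‖ < 1) = (R t).charpoly.roots := by
            apply Multiset.eq_of_le_of_card_le (Multiset.filter_le _ _)
            rw [h2]
            exact h1.ge
          exact Multiset.filter_eq_self.1 h3
        have hc0 : cycC p t ≠ 0 := cycC_ne_zero t
        have hc1 : ‖cycC p t - 1‖ < 1 := fn_cyc hζ ha t
        have h4 : ((cycC p t)⁻¹ * y) ∈ (R t).charpoly.roots := by
          rw [mem_roots (Matrix.charpoly_monic _).ne_zero]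
          have h7 : R' t = cycC p t • R t := by
            change cycC p t ^ 1 • R t = _
            rw [pow_one]
          rw [h7] at hroot
          exact em_smul (R t) hc0 hroot
        have h5 := hall1 _ h4
        refine pr_eq_one ho hy ?_
        have h8 : y - 1 = cycC p t * ((cycC p t)⁻¹ * y - 1) + (cycC p t - 1) := by
          rw [mul_sub, mul_inv_cancel_left₀ hc0]
          ring
        rw [h8]
        refine lt_of_le_of_lt (IsUltrametricDist.norm_add_le_max _ _) (max_lt ?_ hc1)
        rw [norm_mul, ms_norm_of_near hc1, one_mul]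
        exact h5
      have h6 : t ∈ M := by
        have : (t : Qbar ≃ₐ[K] Qbar) ∈ (M : Set (Qbar ≃ₐ[K] Qbar)) := by rw [hM]; exact ht
        exact this
      have h7 : g' = t * (g'⁻¹ * t)⁻¹ := by group
      rw [h7]
      exact M.mul_mem h6 (M.inv_mem (hNM htN)))
    (by
      -- elements with full cycles
      intro g hg1 hg2 hg3 v hv hgv
      by_contra hvA
      have hU1 : {y : Qbar ≃ₐ[K] Qbar | g⁻¹ * y ∈ N} ∈ 𝓝 g :=
        (hNo.preimage (continuous_const_mul g⁻¹)).mem_nhds (by
          show g⁻¹ * g ∈ N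
          rw [inv_mul_cancel]
          exact N.one_mem)
      have hU2 := tg_nhds g (fun x : Roots (D.comp h) => x.1)
      obtain ⟨t, ⟨htN, htx⟩, f, hf1, hf2⟩ := ui_dense hcomp g _ (Filter.inter_mem hU1 hU2)
      have hres : residuallyOne (R t) = 0 := by
        rw [← hfull g hg1 hg2 hg3]
        exact hsame fun x => Subtype.ext (htx x)
      have h1 : π' t v - v ∈ A := by
        have h2 : π' t v - v = π' g (π' (g⁻¹ * t) v - v) + (π' g v - v) := by
          rw [map_sub, ← Module.End.mul_apply, ← map_mul, mul_inv_cancel_left]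
          abel
        rw [h2]
        exact A.add_mem (hA _ _ (hNAB _ htN _ hv)) hgv
      have h2 : (π' t).charpoly.IsRoot 1 := eq_root (π' t) A (hA t) h1 hvA
      have h3 : 0 < (π' t).charpoly.rootMultiplicity 1 :=
        (rootMultiplicity_pos (LinearMap.charpoly_monic _).ne_zero).2 h2
      have h4 : (π' t).charpoly.rootMultiplicity 1 = (R' t).charpoly.rootMultiplicity 1 := by
        rw [hf1, hf2, ← map_one il, ← Polynomial.eq_rootMultiplicity_map il.injective, ← map_one ip,
          ← Polynomial.eq_rootMultiplicity_map ip.injective]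
      have h5 := fn_mult hζ ha R 1 t
      rw [hres, ← hR'] at h5
      omega)
  -- the subquotient is everything
  have hfr1 : Module.finrank (PadicAlgCl ℓ) (B ⧸ A.comap B.subtype) +
      Module.finrank (PadicAlgCl ℓ) (A.comap B.subtype) = Module.finrank (PadicAlgCl ℓ) B :=
    Submodule.finrank_quotient_add_finrank _
  have hfr2 : Module.finrank (PadicAlgCl ℓ) B ≤ Module.finrank (PadicAlgCl ℓ) V :=
    Submodule.finrank_le B
  have hBtop : B = ⊤ := Submodule.eq_top_of_finrank_eq (by omega)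
  have hA0 : A.comap B.subtype = ⊥ := Submodule.finrank_eq_zero.1 (by omega)
  have hAbot : A = ⊥ := by
    rw [Submodule.eq_bot_iff]
    intro x hx
    have h1 : (⟨x, hAB hx⟩ : B) ∈ A.comap B.subtype := hx
    rw [hA0, Submodule.mem_bot] at h1
    exact congrArg Subtype.val h1
  have htriv : ∀ g ∈ N, π' g = 1 := by
    intro g hg
    refine LinearMap.ext fun x => ?_
    have h1 := hNAB g hg x (by rw [hBtop]; exact Submodule.mem_top)
    rw [hAbot, Submodule.mem_bot, sub_eq_zero] at h1
    exact h1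
  -- all eigenvalues of the other representation are roots of unity
  set X' := Pool.Agent.TBL.twist X 1 with hX'
  have hcompX : Compatible ir il X' π' := fn_comp (smS D h) ir X hX.traces il π hπ 1
  have hX'c := hcont X hX.continuous
  set e := N.index with he
  have he0 : 0 < e := Nat.pos_of_ne_zero hfi.index_ne_zero
  have hx₀e : x₀ ^ e ≠ 1 := hx₀' e he0
  have hX'g₀ : x₀ ^ e ∈ (X' (g₀ ^ e)).charpoly.roots := by
    rw [map_pow, Pool.Agent.OS.nw_pow, Multiset.mem_map]
    refine ⟨x₀, ?_, rfl⟩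
    rw [mem_roots (Matrix.charpoly_monic _).ne_zero]
    have h1 : X' g₀ = cycC r g₀ • X g₀ := by
      change cycC r g₀ ^ 1 • X g₀ = _
      rw [pow_one]
    rw [h1]
    exact hx₀
  have hopen : IsOpen {y : Qbar ≃ₐ[K] Qbar |
      (X' (y ^ e)).charpoly.eval (x₀ ^ e) ≠ (x₀ ^ e - 1) ^ d'} :=
    isOpen_ne.preimage ((ui_cont_eval (x₀ ^ e)).comp (hX'c.comp (continuous_pow e)))
  obtain ⟨t, ht, f, hf1, hf2⟩ := ui_dense hcompX g₀ _ (hopen.mem_nhds (by
    show (X' (g₀ ^ e)).charpoly.eval (x₀ ^ e) ≠ (x₀ ^ e - 1) ^ d'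
    have h1 : (X' (g₀ ^ e)).charpoly.eval (x₀ ^ e) = 0 :=
      (mem_roots (Matrix.charpoly_monic _).ne_zero).1 hX'g₀
    rw [h1]
    exact (pow_ne_zero _ (sub_ne_zero.2 hx₀e)).symm))
  apply ht
  have hroots : ∀ y ∈ (X' (t ^ e)).charpoly.roots, y = 1 := by
    intro y hy
    rw [map_pow, Pool.Agent.OS.nw_pow, Multiset.mem_map] at hy
    obtain ⟨z, hz, rfl⟩ := hy
    have hf0 : f ≠ 0 := by
      intro h0
      rw [h0, Polynomial.map_zero] at hf1
      exact (Matrix.charpoly_monic _).ne_zero hf1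
    refine em_transfer il ir hf0 ?_ z ?_
    · intro x hx
      rw [← hf2, ← Module.End.hasEigenvalue_iff_isRoot_charpoly] at hx
      obtain ⟨v, hv⟩ := hx.exists_hasEigenvector
      have h1 : ∀ i : ℕ, (π' t ^ i) v = x ^ i • v := by
        intro i
        induction i with
        | zero => rw [pow_zero, pow_zero, one_smul]; rfl
        | succ i ih =>
          rw [pow_succ, Module.End.mul_apply, hv.apply_eq_smul, map_smul, ih, smul_smul, pow_succ']
      have h2 := h1 e
      rw [← map_pow, htriv _ (N.pow_index_mem t), Module.End.one_apply] at h2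
      have h3 : (x ^ e - 1) • v = 0 := by rw [sub_smul, one_smul, ← h2, sub_self]
      rcases smul_eq_zero.1 h3 with h4 | h4
      · exact sub_eq_zero.1 h4
      · exact absurd h4 hv.2
    · rw [← hf1]
      exact (mem_roots (Matrix.charpoly_monic _).ne_zero).1 hz
  have hcardroots : Multiset.card (X' (t ^ e)).charpoly.roots = d' := by
    rw [IsAlgClosed.card_roots_eq_natDegree, Matrix.charpoly_natDegree_eq_dim, Fintype.card_fin]
  have hrep : (X' (t ^ e)).charpoly.roots = Multiset.replicate d' 1 :=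
    Multiset.eq_replicate.2 ⟨hcardroots, hroots⟩
  have hprod := (IsAlgClosed.splits (X' (t ^ e)).charpoly).eq_prod_roots
  rw [(Matrix.charpoly_monic _).leadingCoeff, C_1, one_mul, hrep, Multiset.map_replicate,
    Multiset.prod_replicate] at hprod
  rw [hprod, eval_pow, eval_sub, eval_X, eval_C]

end final

end Pool.Agent.DP
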