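import Mathlib

/-!
# Double planes `y ^ 2 = D(t) (h(x) - t)` and Galois representations: definitions

Here `K` is a number field and `L` is an algebraic closure of `K`; the Galois group is the group of
the automorphisms of `L` over `K`.
-/

set_option autoImplicit false

namespace Pool.Agent.DoublePlane

open NumberField Polynomial

variable {K L : Type} [Field K] [Field L] [Algebra K L]

/-- Some element of the Galois group interchanges two of the roots of `P` and fixes all other roots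
of `P`. -/
def HasTransposition (L : Type) [Field L] [Algebra K L] (P : (𝓞 K)[X]) : Prop :=
  ∃ (g : L ≃ₐ[K] L) (x y : L), x ≠ y ∧ aeval x P = 0 ∧ aeval y P = 0 ∧ g x = y ∧ g y = x ∧
    ∀ z : L, aeval z P = 0 → z ≠ x → z ≠ y → g z = z

/-- The representation `ρ` of the absolute Galois group of `K` over an algebraic closure of `ℚ_ℓ` is
continuous and its traces count the points of the double plane `y ^ 2 = D(t) (h(x) - t)`: for all
prime ideals `𝔓` of the ring of algebraic integers above almost all primes `q`, all finite fields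
`F` that contain the residue field of `K` at `𝔓` and all elements `σ` of the Galois group that
induce `x ↦ x ^ |F|` modulo `𝔓`, the trace of `ρ(σ⁻¹)` is the number of the points `(t, x, y)` of
the double plane with coordinates in `F` minus `|F| ^ 2`. -/
structure CountsPoints (D h : (𝓞 K)[X]) {ℓ : ℕ} [Fact ℓ.Prime] {d : ℕ}
    (ρ : (L ≃ₐ[K] L) →* Matrix (Fin d) (Fin d) (PadicAlgCl ℓ)) : Prop where
  continuous : Continuous ρ
  traces : ∃ B : Finset ℕ, ∀ q : ℕ, q.Prime → q ∉ B → ∀ 𝔓 : Ideal (𝓞 L), 𝔓.IsPrime →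
    (q : 𝓞 L) ∈ 𝔓 → ∀ (F : Type) [Field F] [Fintype F] (φ : 𝓞 K →+* F),
      (∀ x : 𝓞 K, φ x = 0 ↔ algebraMap (𝓞 K) (𝓞 L) x ∈ 𝔓) →
      ∀ σ : L ≃ₐ[K] L, (∀ x y : 𝓞 L, (y : L) = σ x → y - x ^ Fintype.card F ∈ 𝔓) →
        (ρ σ⁻¹).trace = (Nat.card {P : F × F × F //
          P.2.2 ^ 2 = D.eval₂ φ P.1 * (h.eval₂ φ P.2.1 - P.1)} : PadicAlgCl ℓ) -
            (Fintype.card F : PadicAlgCl ℓ) ^ 2

/-- The matrix `ρ(1)(σ)` of the twist of `ρ` by the `ℓ`-adic cyclotomic character. -/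
noncomputable def twist {ℓ : ℕ} [Fact ℓ.Prime] {d : ℕ}
    (ρ : (L ≃ₐ[K] L) →* Matrix (Fin d) (Fin d) (PadicAlgCl ℓ)) (σ : L ≃ₐ[K] L) :
    Matrix (Fin d) (Fin d) (PadicAlgCl ℓ) :=
  algebraMap ℚ_[ℓ] (PadicAlgCl ℓ)
    (algebraMap ℤ_[ℓ] ℚ_[ℓ] (cyclotomicCharacter L ℓ (σ : L ≃+* L))) • ρ σ

/-- Some eigenvalue of some matrix `ρ(1)(σ)` is not a root of unity. -/
def NotAllRootsOfUnity {ℓ : ℕ} [Fact ℓ.Prime] {d : ℕ}
    (ρ : (L ≃ₐ[K] L) →* Matrix (Fin d) (Fin d) (PadicAlgCl ℓ)) : Prop :=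
  ∃ (σ : L ≃ₐ[K] L) (x : PadicAlgCl ℓ),
    (twist ρ σ).charpoly.IsRoot x ∧ ∀ k : ℕ, 0 < k → x ^ k ≠ 1

/-- No open subgroup `H` of the Galois group acts trivially on a nonzero subquotient `W₂ / W₁` of
`ρ(1)`. -/
def NoTateClasses {ℓ : ℕ} [Fact ℓ.Prime] {d : ℕ}
    (ρ : (L ≃ₐ[K] L) →* Matrix (Fin d) (Fin d) (PadicAlgCl ℓ)) : Prop :=
  ∀ H : Subgroup (L ≃ₐ[K] L), IsOpen (H : Set (L ≃ₐ[K] L)) →
    ∀ W₁ W₂ : Submodule (PadicAlgCl ℓ) (Fin d → PadicAlgCl ℓ), W₁ ≤ W₂ →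
      (∀ σ ∈ H, ∀ x ∈ W₂, (twist ρ σ).mulVec x - x ∈ W₁) → W₁ = W₂

end Pool.Agent.DoublePlane
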