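import Pool.Agent.Lib_helper46.DP.Main
import Pool.Agent.Lib_helper46.DP.DefsD

/-!
# The double planes `y ^ 2 = D(t) (h(x) - t)`
-/

set_option autoImplicit false

namespace Pool.Agent.DP

open NumberField Polynomial Pool.Agent.TT Pool.Agent.TF

theorem dc_real {K : Type} [Field K] [NumberField K] [Algebra K Qbar] {D h : (𝓞 K)[X]} {ℓ : ℕ}
    [Fact ℓ.Prime] {d : ℕ} {ρ : (Qbar ≃ₐ[K] Qbar) →* Matrix (Fin d) (Fin d) (PadicAlgCl ℓ)}
    (hρ : DoublePlane.CountsPoints D h ρ) (ι : K →+* PadicAlgCl ℓ) :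
    IsRealization D h (2 ^ 1) (-1) ι ρ := by
  refine ⟨hρ.continuous, ?_⟩
  obtain ⟨B, hB⟩ := hρ.traces
  refine ⟨insert 2 B, fun q hq hqB 𝔓 h𝔓 hq𝔓 F _ _ φ hφ σ hσ => ?_⟩
  have hq2 : q ≠ 2 := fun h => hqB (h ▸ Finset.mem_insert_self 2 B)
  have hqB' : q ∉ B := fun h => hqB (Finset.mem_insert_of_mem h)
  have h1 := hB q hq hqB' 𝔓 h𝔓 hq𝔓 F φ hφ σ hσ
  have hqF : (q : F) = 0 := by
    have h2 : φ (q : 𝓞 K) = 0 := by
      rw [hφ, map_natCast]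
      exact hq𝔓
    rwa [map_natCast] at h2
  have hch : ringChar F = q := by
    have h3 : ringChar F ∣ q := (ringChar.spec F q).1 hqF
    rcases (Nat.dvd_prime hq).1 h3 with h4 | h4
    · exact absurd h4 (CharP.ringChar_ne_one)
    · exact h4
  have h5 : ringChar F ≠ 2 := by rw [hch]; exact hq2
  have h6 : Nat.card {P : F × F × F // P.2.2 ^ 2 = D.eval₂ φ P.1 * (h.eval₂ φ P.2.1 - P.1)} =
      surfacePoints D h φ := rfl
  beta_reduce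
  rw [h1, h6, pow_one, sm_double φ h5 D h]
  push_cast
  simp

/-- The main theorem for the double planes. -/
theorem dc_main {K : Type} [Field K] [NumberField K] [Algebra K Qbar] {D h : (𝓞 K)[X]}
    (hD : D.Monic) (hh : h.Monic) (hm : h.natDegree.Prime) (hm2 : h.natDegree ≠ 2)
    (hirr : Irreducible ((D.comp h).map (algebraMap (𝓞 K) K)))
    (hA : DoublePlane.HasTransposition (AlgebraicClosure ℚ) (D.comp h))
    {d : ℕ} (ρ : ∀ (ℓ : ℕ) [Fact ℓ.Prime],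
      (Qbar ≃ₐ[K] Qbar) →* Matrix (Fin d) (Fin d) (PadicAlgCl ℓ))
    (hρ : ∀ (ℓ : ℕ) [Fact ℓ.Prime], DoublePlane.CountsPoints D h (ρ ℓ))
    (hB : ∃ (r : ℕ) (_ : Fact r.Prime), DoublePlane.NotAllRootsOfUnity (ρ r))
    (ℓ : ℕ) [Fact ℓ.Prime] : DoublePlane.NoTateClasses (ρ ℓ) := by
  have : Fact (Nat.Prime 2) := ⟨Nat.prime_two⟩
  have hζ : IsPrimitiveRoot (-1 : 𝓞 K) (2 ^ 1) := by
    rw [pow_one]
    exact IsPrimitiveRoot.neg_one 0 (by norm_num)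
  obtain ⟨r, hr, hB⟩ := hB
  have hι : ∀ (l : ℕ) [Fact l.Prime], Nonempty (K →+* PadicAlgCl l) := fun l _ =>
    ⟨(IsAlgClosed.lift (R := ℚ) (S := K) (M := PadicAlgCl l)).toRingHom⟩
  obtain ⟨ιr⟩ := hι r
  obtain ⟨ι⟩ := hι ℓ
  have h1 : NoTateClasses (ρ ℓ) :=
    mn_cover hζ one_pos hD hh hm hm2 hm2 hirr hA (fun l _ _ => ρ l)
      (fun l _ κ => dc_real (hρ l) κ) ⟨r, hr, ιr, hB⟩ ℓ ι
  intro H hH W₁ W₂ hW h2
  refine h1 H hH W₁ W₂ hW fun σ hσ x hx => ?_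
  have h3 := h2 σ hσ x hx
  have h4 : (DoublePlane.twist (ρ ℓ) σ).mulVec x = cyc ℓ σ • (ρ ℓ σ).mulVec x :=
    Matrix.smul_mulVec _ _ _
  rwa [h4] at h3

end Pool.Agent.DP
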