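import Pool.Agent.Lib_helper46.DP.EM

/-!
# The cyclic covers `z ^ m = D(t) (h(x) - t)` of the plane: the final form of the theorem
-/

set_option autoImplicit false

namespace Pool.Agent.DP

open NumberField Polynomial Pool.Agent.TT Pool.Agent.TB Pool.Agent.TF Pool.Agent.UI
open Pool.Agent.TU Pool.Agent.RF

/-- The representation on the space of vectors. -/
noncomputable def vecRep {k G : Type} [Field k] [Group G] {d : ℕ}
    (ρ : G →* Matrix (Fin d) (Fin d) k) : Representation k G (Fin d → k) :=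
  (Matrix.toLinAlgEquiv' : Matrix (Fin d) (Fin d) k ≃ₐ[k] _).toMonoidHom.comp ρ

theorem vecRep_apply {k G : Type} [Field k] [Group G] {d : ℕ}
    (ρ : G →* Matrix (Fin d) (Fin d) k) (g : G) (x : Fin d → k) :
    vecRep ρ g x = (ρ g).mulVec x := rfl

theorem vecRep_trace {k G : Type} [Field k] [Group G] {d : ℕ}
    (ρ : G →* Matrix (Fin d) (Fin d) k) (g : G) :
    LinearMap.trace k (Fin d → k) (vecRep ρ g) = (ρ g).trace := by
  have : vecRep ρ g = Matrix.toLin' (ρ g) := rfl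
  rw [this, Matrix.trace_toLin'_eq]

/-- **The theorem on the covers.** -/
theorem mn_cover {K : Type} [Field K] [NumberField K] [Algebra K Qbar] {p a : ℕ} [Fact p.Prime]
    {ζ : 𝓞 K} (hζ : IsPrimitiveRoot ζ (p ^ a)) (ha : 0 < a) {D h : (𝓞 K)[X]} (hD : D.Monic)
    (hh : h.Monic) (hm : h.natDegree.Prime) (hm2 : h.natDegree ≠ 2) (hmp : h.natDegree ≠ p)
    (hirr : Irreducible ((D.comp h).map (algebraMap (𝓞 K) K))) (hA : HasTransposition (D.comp h))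
    {d : ℕ} (ρ : ∀ (ℓ : ℕ) [Fact ℓ.Prime], (K →+* PadicAlgCl ℓ) →
      (Qbar ≃ₐ[K] Qbar) →* Matrix (Fin d) (Fin d) (PadicAlgCl ℓ))
    (hρ : ∀ (ℓ : ℕ) [Fact ℓ.Prime] (ι : K →+* PadicAlgCl ℓ),
      IsRealization D h (p ^ a) ζ ι (ρ ℓ ι))
    (hB : ∃ (r : ℕ) (_ : Fact r.Prime) (ι : K →+* PadicAlgCl r), NotAllRootsOfUnity (ρ r ι))
    (ℓ : ℕ) [Fact ℓ.Prime] (ι : K →+* PadicAlgCl ℓ) : NoTateClasses (ρ ℓ ι) := by
  classical
  obtain ⟨r, _, ir, g₀, x₀, hx₀, hx₀'⟩ := hB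
  let ip : K →+* PadicAlgCl p :=
    (IsAlgClosed.lift (R := ℚ) (S := K) (M := PadicAlgCl p)).toRingHom
  have hπ : SumTraces (fun σ => LinearMap.trace (PadicAlgCl ℓ) (Fin d → PadicAlgCl ℓ)
      (vecRep (ρ ℓ ι) σ)) ι (p ^ a) ζ (smS D h) := by
    obtain ⟨B, hB⟩ := (hρ ℓ ι).traces
    refine ⟨B, ?_⟩
    intro q hq hqB 𝔓 h𝔓 hq𝔓 F _ _ φ hφ σ hσ
    have h1 := hB q hq hqB 𝔓 h𝔓 hq𝔓 F φ hφ σ hσ
    simp only at h1 ⊢
    rw [vecRep_trace, h1, sm_cover]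
  have hmain := em_main hζ ha hD hh hm hm2 hmp hirr hA _ (extRep (ρ p ip)) (fn_real (hρ p ip))
    _ (extRep (ρ r ir)) (fn_real (hρ r ir)) g₀ (algebraMap (PadicAlgCl r) ℂ_[r] x₀) (fn_eigC hx₀)
    (by
      intro n hn h1
      apply hx₀' n hn
      apply (algebraMap (PadicAlgCl r) ℂ_[r]).injective
      rw [map_pow, h1, map_one]) ι (vecRep (ρ ℓ ι)) hπ
  intro H hH W₁ W₂ hW hT
  refine hmain H hH W₁ W₂ hW ?_
  intro σ hσ x hx
  rw [pow_one, vecRep_apply]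
  exact hT σ hσ x hx

end Pool.Agent.DP
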