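import Pool.Agent.Lib_helper46.DP.SM

/-!
# The cyclic covers `z ^ m = D(t) (h(x) - t)` of the plane: definitions
-/

set_option autoImplicit false

namespace Pool.Agent.DP

open NumberField Polynomial Pool.Agent.TT Pool.Agent.TF

/-- The representation `ρ` of the absolute Galois group of `K` over an algebraic closure of `ℚ_ℓ` is
continuous and has the traces `T(F)` (`K` is embedded by `ι`): for all prime ideals `𝔓` of the ring
of algebraic integers above almost all primes `q`, all finite fields `F` that contain the residue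
field of `K` at `𝔓` and all elements `σ` of the Galois group that induce `x ↦ x ^ |F|` modulo `𝔓`,
the trace of `ρ(σ⁻¹)` is the sum of the `m`-th power residue symbols of `D(t) (h(x) - t)`. -/
structure IsRealization {K : Type} [Field K] [Algebra K Qbar] (D h : (𝓞 K)[X]) (m : ℕ) (ζ : 𝓞 K)
    {ℓ : ℕ} [Fact ℓ.Prime] (ι : K →+* PadicAlgCl ℓ) {d : ℕ}
    (ρ : (Qbar ≃ₐ[K] Qbar) →* Matrix (Fin d) (Fin d) (PadicAlgCl ℓ)) : Prop where
  continuous : Continuous ρ
  traces : FrobeniusValues (fun σ => (ρ σ).trace) fun _ _ _ φ => ι (coverSum D h m ζ φ : 𝓞 K)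

/-- Some element of the Galois group interchanges two of the roots of `P` and fixes all other roots
of `P`. -/
def HasTransposition {K : Type} [Field K] [Algebra K Qbar] (P : (𝓞 K)[X]) : Prop :=
  ∃ (g : Qbar ≃ₐ[K] Qbar) (x y : Qbar), x ≠ y ∧ aeval x P = 0 ∧ aeval y P = 0 ∧ g x = y ∧
    g y = x ∧ ∀ z : Qbar, aeval z P = 0 → z ≠ x → z ≠ y → g z = z

/-- Some eigenvalue of some element in the twist `ρ(1)` is not a root of unity. -/
def NotAllRootsOfUnity {K : Type} [Field K] [Algebra K Qbar] {r : ℕ} [Fact r.Prime] {d : ℕ}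
    (ρ : (Qbar ≃ₐ[K] Qbar) →* Matrix (Fin d) (Fin d) (PadicAlgCl r)) : Prop :=
  ∃ (g : Qbar ≃ₐ[K] Qbar) (x : PadicAlgCl r), (cyc r g • ρ g).charpoly.IsRoot x ∧
    ∀ k : ℕ, 0 < k → x ^ k ≠ 1

/-- No open subgroup of the Galois group acts trivially on a nonzero subquotient `W₂ / W₁` of the
twist `ρ(1)`. -/
def NoTateClasses {K : Type} [Field K] [Algebra K Qbar] {ℓ : ℕ} [Fact ℓ.Prime] {d : ℕ}
    (ρ : (Qbar ≃ₐ[K] Qbar) →* Matrix (Fin d) (Fin d) (PadicAlgCl ℓ)) : Prop :=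
  ∀ H : Subgroup (Qbar ≃ₐ[K] Qbar), IsOpen (H : Set (Qbar ≃ₐ[K] Qbar)) →
    ∀ W₁ W₂ : Submodule (PadicAlgCl ℓ) (Fin d → PadicAlgCl ℓ), W₁ ≤ W₂ →
      (∀ σ ∈ H, ∀ x ∈ W₂, cyc ℓ σ • (ρ σ).mulVec x - x ∈ W₁) → W₁ = W₂

end Pool.Agent.DP
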