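import Pool.Agent.Lib_helper61.TB.CG

/-!
# The number of the roots of a polynomial over a residue field and Frobenius elements
-/

set_option autoImplicit false

namespace Pool.Agent.DP

open NumberField Polynomial Pool.Agent.TT Pool.Agent.TF

section roots

variable {K : Type} [Field K] [Algebra K Qbar]

/-- The roots in the algebraic closure of `ℚ` of a polynomial over the integers of `K`. -/
def Roots (P : (𝓞 K)[X]) : Type := {x : Qbar // aeval x P = 0}

theorem fb_aeval (g : Qbar ≃ₐ[K] Qbar) (P : (𝓞 K)[X]) (x : Qbar) :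
    aeval (g x) P = g (aeval x P) := by
  have := Polynomial.aeval_algHom_apply ((g : Qbar →ₐ[K] Qbar).restrictScalars (𝓞 K)) x P
  exact this

/-- The Galois group acts on the roots. -/
noncomputable instance Roots.mulAction (P : (𝓞 K)[X]) : MulAction (Qbar ≃ₐ[K] Qbar) (Roots P) where
  smul g x := ⟨g x.1, by rw [fb_aeval, x.2, map_zero]⟩
  one_smul x := rfl
  mul_smul g h x := rfl

theorem Roots.smul_val {P : (𝓞 K)[X]} (g : Qbar ≃ₐ[K] Qbar) (x : Roots P) :
    (g • x).1 = g x.1 := rfl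

theorem fb_finite {P : (𝓞 K)[X]} (hP : P.Monic) : Finite (Roots P) := by
  have h1 : P.map (algebraMap (𝓞 K) Qbar) ≠ 0 := (hP.map _).ne_zero
  have h2 : Set.Finite {x : Qbar | aeval x P = 0} := by
    refine (Polynomial.finite_setOfPred_isRoot h1).subset ?_
    intro x hx
    rw [Set.mem_ofPred_eq, IsRoot, eval_map_algebraMap]
    exact hx
  exact h2.to_subtype

theorem fb_int {P : (𝓞 K)[X]} (hP : P.Monic) (x : Roots P) : IsIntegral ℤ x.1 := by
  have h1 : IsIntegral (𝓞 K) x.1 := ⟨P, hP, x.2⟩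
  exact isIntegral_trans (R := ℤ) (A := 𝓞 K) x.1 h1

/-- The roots as algebraic integers. -/
noncomputable def Roots.int {P : (𝓞 K)[X]} (hP : P.Monic) (x : Roots P) : 𝓞 Qbar :=
  ⟨x.1, fb_int hP x⟩

/-- The factorization over the ring of all algebraic integers. -/
theorem fb_prod {P : (𝓞 K)[X]} (hP : P.Monic) {E : Type} [Field E] (j : 𝓞 Qbar →+* E) (z : E)
    (hz : eval₂ (j.comp (algebraMap (𝓞 K) (𝓞 Qbar))) z P = 0) :
    ∃ x : Roots P, j (x.int hP) = z := by
  classical
  -- the roots with multiplicity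
  set Q : Qbar[X] := P.map (algebraMap (𝓞 K) Qbar) with hQ
  have hQm : Q.Monic := hP.map _
  have hsp : Q = (Q.roots.map fun a => X - C a).prod := by
    have := (IsAlgClosed.splits Q).eq_prod_roots
    rwa [hQm.leadingCoeff, C_1, one_mul] at this
  have hroot : ∀ a ∈ Q.roots, aeval a P = 0 := by
    intro a ha
    rw [mem_roots hQm.ne_zero, IsRoot, hQ, eval_map_algebraMap] at ha
    exact ha
  let mk : ∀ a : Qbar, aeval a P = 0 → Roots P := fun a ha => ⟨a, ha⟩
  obtain ⟨t, ht⟩ : ∃ t : Multiset (Roots P), Q.roots = t.map (fun x : Roots P => (x.1 : Qbar)) := by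
    refine ⟨Q.roots.pmap mk hroot, ?_⟩
    rw [Multiset.map_pmap]
    exact ((Multiset.pmap_eq_map _ _ _ _).trans (Multiset.map_id _)).symm
  have h1 : P.map (algebraMap (𝓞 K) (𝓞 Qbar)) = (t.map fun x => X - C (x.int hP)).prod := by
    apply Polynomial.map_injective (algebraMap (𝓞 Qbar) Qbar) RingOfIntegers.coe_injective
    rw [Polynomial.map_map, ← IsScalarTower.algebraMap_eq (𝓞 K) (𝓞 Qbar) Qbar, ← hQ, hsp, ht,
      Multiset.map_map, Polynomial.map_multiset_prod, Multiset.map_map]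
    congr 1
    apply Multiset.map_congr rfl
    intro x _
    simp only [Function.comp_apply, Polynomial.map_sub, map_X, map_C]
    rfl
  have h2 : eval₂ j z (P.map (algebraMap (𝓞 K) (𝓞 Qbar))) = 0 := by
    rw [eval₂_map]
    exact hz
  rw [h1, eval₂_multiset_prod, Multiset.prod_eq_zero_iff, Multiset.map_map, Multiset.mem_map] at h2
  obtain ⟨x, -, hx⟩ := h2
  refine ⟨x, ?_⟩
  simp only [Function.comp_apply, eval₂_sub, eval₂_X, eval₂_C] at hx
  exact (sub_eq_zero.1 hx).symm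

end roots

section count

variable {K : Type} [Field K] [Algebra K Qbar]

/-- Embedding of the finite field and of the ring of algebraic integers in one field. -/
theorem fb_embed {q : ℕ} (hq : q.Prime) {𝔓 : Ideal (𝓞 Qbar)} (hP : 𝔓.IsPrime)
    (hqP : (q : 𝓞 Qbar) ∈ 𝔓) (F : Type) [Field F] [Fintype F] (φ : 𝓞 K →+* F)
    (hφ : ∀ x : 𝓞 K, φ x = 0 ↔ algebraMap (𝓞 K) (𝓞 Qbar) x ∈ 𝔓) :
    ∃ (E : Type) (_ : Field E) (jF : F →+* E) (j : 𝓞 Qbar →+* E), (∀ x, j x = 0 ↔ x ∈ 𝔓) ∧
      jF.comp φ = j.comp (algebraMap (𝓞 K) (𝓞 Qbar)) := by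
  classical
  have hmax : 𝔓.IsMaximal := cg_max hq hP hqP
  let _ : Field (𝓞 Qbar ⧸ 𝔓) := Ideal.Quotient.field 𝔓
  let E := AlgebraicClosure (𝓞 Qbar ⧸ 𝔓)
  let j : 𝓞 Qbar →+* E := (algebraMap (𝓞 Qbar ⧸ 𝔓) E).comp (Ideal.Quotient.mk 𝔓)
  have hj : ∀ x, j x = 0 ↔ x ∈ 𝔓 := by
    intro x
    rw [RingHom.comp_apply, map_eq_zero_iff _ (algebraMap (𝓞 Qbar ⧸ 𝔓) E).injective,
      Ideal.Quotient.eq_zero_iff_mem]
  let I : Ideal (𝓞 K) := RingHom.ker φ
  have hI : I.IsPrime := RingHom.ker_isPrime φ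
  have hfin : Finite (𝓞 K ⧸ I) := Finite.of_injective _ (RingHom.kerLift_injective φ)
  have hdom : IsDomain (𝓞 K ⧸ I) := Ideal.Quotient.isDomain I
  have hfield : IsField (𝓞 K ⧸ I) := Finite.isField_of_domain (𝓞 K ⧸ I)
  let _ : Field (𝓞 K ⧸ I) := hfield.toField
  let _ : Algebra (𝓞 K ⧸ I) F := (RingHom.kerLift φ).toAlgebra
  let _ : Algebra (𝓞 K ⧸ I) E :=
    (Ideal.Quotient.lift I (j.comp (algebraMap (𝓞 K) (𝓞 Qbar))) (by
      intro a ha
      rw [RingHom.comp_apply, hj, ← hφ]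
      exact ha)).toAlgebra
  have : Module.Finite (𝓞 K ⧸ I) F := Module.Finite.of_finite
  have halg : Algebra.IsAlgebraic (𝓞 K ⧸ I) F := Algebra.IsAlgebraic.of_finite _ _
  let f : F →ₐ[𝓞 K ⧸ I] E := IsAlgClosed.lift
  refine ⟨E, inferInstance, f.toRingHom, j, hj, ?_⟩
  ext x
  have h1 : φ x = algebraMap (𝓞 K ⧸ I) F (Ideal.Quotient.mk I x) := rfl
  change f (φ x) = j (algebraMap (𝓞 K) (𝓞 Qbar) x)
  rw [h1, f.commutes]
  rfl

/-- **The number of the roots over a finite field.** -/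
theorem fb_count {P : (𝓞 K)[X]} (hP : P.Monic) :
    ∃ B : Finset ℕ, ∀ q : ℕ, q.Prime → q ∉ B → ∀ 𝔓 : Ideal (𝓞 Qbar), 𝔓.IsPrime →
      (q : 𝓞 Qbar) ∈ 𝔓 → ∀ (F : Type) [Field F] [Fintype F] (φ : 𝓞 K →+* F),
        (∀ x : 𝓞 K, φ x = 0 ↔ algebraMap (𝓞 K) (𝓞 Qbar) x ∈ 𝔓) →
        ∀ σ : Qbar ≃ₐ[K] Qbar,
          (∀ x y : 𝓞 Qbar, (y : Qbar) = σ x → y - x ^ Fintype.card F ∈ 𝔓) →
            Nat.card {x : Roots P // σ⁻¹ • x = x} = Nat.card {y : F // eval₂ φ y P = 0} := by
  classical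
  have hfin : Finite (Roots P) := fb_finite hP
  have := Fintype.ofFinite (Roots P)
  -- the bad primes
  have hbad : ∀ xy : Roots P × Roots P, ∃ B : Finset ℕ, xy.1 ≠ xy.2 → ∀ q : ℕ, q.Prime → q ∉ B →
      ∀ Q : Ideal (𝓞 Qbar), Q.IsPrime → (q : 𝓞 Qbar) ∈ Q →
        xy.1.int hP - xy.2.int hP ∉ Q := by
    rintro ⟨x, y⟩
    by_cases hxy : x = y
    · exact ⟨∅, fun h => absurd hxy h⟩
    · have h0 : x.int hP - y.int hP ≠ 0 := by
        intro h
        apply hxy
        apply Subtype.ext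
        have h1 := congrArg (fun z : 𝓞 Qbar => (z : Qbar)) (sub_eq_zero.1 h)
        exact h1
      obtain ⟨B, hB⟩ := cg_bad h0
      exact ⟨B, fun _ => hB⟩
  choose B hB using hbad
  refine ⟨Finset.univ.biUnion B, ?_⟩
  intro q hq hqB 𝔓 h𝔓 hq𝔓 F _ _ φ hφ σ hσ
  have hinj : ∀ x y : Roots P, x.int hP - y.int hP ∈ 𝔓 → x = y := by
    intro x y hxy
    by_contra hne
    refine hB (x, y) hne q hq ?_ 𝔓 h𝔓 hq𝔓 hxy
    intro h
    exact hqB (Finset.mem_biUnion.2 ⟨_, Finset.mem_univ _, h⟩)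
  obtain ⟨E, _, jF, j, hj, hcomm⟩ := fb_embed hq h𝔓 hq𝔓 F φ hφ
  have hjeq : ∀ x y, j x = j y ↔ x - y ∈ 𝔓 := by
    intro x y
    rw [← hj, map_sub, sub_eq_zero]
  -- the roots of unity that lie in the image of `F`
  have hFim : ∀ z : E, z ^ Fintype.card F = z → ∃ y : F, jF y = z := by
    intro z hz
    by_contra hcon
    push Not at hcon
    have hc : 1 < Fintype.card F := Fintype.one_lt_card
    set T : E[X] := X ^ Fintype.card F - X with hT
    have hdeg : T.natDegree = Fintype.card F := FiniteField.X_pow_card_sub_X_natDegree_eq E hc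
    have hT0 : T ≠ 0 := FiniteField.X_pow_card_sub_X_ne_zero E hc
    have h1 : insert z (Finset.univ.image jF) ⊆ T.roots.toFinset := by
      intro a ha
      rw [Multiset.mem_toFinset, mem_roots hT0, IsRoot, hT, eval_sub, eval_pow, eval_X, sub_eq_zero]
      rcases Finset.mem_insert.1 ha with rfl | ha
      · exact hz
      · obtain ⟨y, -, rfl⟩ := Finset.mem_image.1 ha
        rw [← map_pow, FiniteField.pow_card]
    have h2 := Finset.card_le_card h1
    rw [Finset.card_insert_of_notMem (by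
      intro h
      obtain ⟨y, -, hy⟩ := Finset.mem_image.1 h
      exact hcon y hy), Finset.card_image_of_injective _ jF.injective, Finset.card_univ] at h2
    have h3 := (Multiset.toFinset_card_le T.roots).trans (card_roots' T)
    omega
  let fA : {x : Roots P // σ⁻¹ • x = x} → E := fun x => j (x.1.int hP)
  let fC : {y : F // eval₂ φ y P = 0} → E := fun y => jF y.1
  have hA : Function.Injective fA := by
    intro x y hxy
    apply Subtype.ext
    apply hinj
    rw [← hjeq]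
    exact hxy
  have hC : Function.Injective fC := fun x y hxy => Subtype.ext (jF.injective hxy)
  have heval : ∀ x : Roots P, eval₂ (j.comp (algebraMap (𝓞 K) (𝓞 Qbar))) (j (x.int hP)) P = 0 := by
    intro x
    rw [← Polynomial.hom_eval₂]
    have h1 : eval₂ (algebraMap (𝓞 K) (𝓞 Qbar)) (x.int hP) P = 0 := by
      apply RingOfIntegers.coe_injective
      rw [Polynomial.hom_eval₂, ← IsScalarTower.algebraMap_eq (𝓞 K) (𝓞 Qbar) Qbar, map_zero]
      exact x.2
    rw [h1, map_zero]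
  have hrange : Set.range fA = Set.range fC := by
    ext z
    constructor
    · rintro ⟨x, rfl⟩
      have h1 : σ x.1.1 = x.1.1 := by
        have h2 := congrArg Subtype.val x.2
        rw [Roots.smul_val] at h2
        conv_lhs => rw [← h2]
        change (σ * σ⁻¹) x.1.1 = _
        rw [mul_inv_cancel]
        rfl
      have h2 := hσ (x.1.int hP) (x.1.int hP) h1.symm
      rw [← hjeq, map_pow] at h2
      obtain ⟨y, hy⟩ := hFim _ h2.symm
      refine ⟨⟨y, ?_⟩, hy⟩
      apply jF.injective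
      rw [map_zero, Polynomial.hom_eval₂, hcomm, hy]
      exact heval x.1
    · rintro ⟨y, rfl⟩
      have h1 : eval₂ (j.comp (algebraMap (𝓞 K) (𝓞 Qbar))) (jF y.1) P = 0 := by
        rw [← hcomm, ← Polynomial.hom_eval₂, y.2, map_zero]
      obtain ⟨x, hx⟩ := fb_prod hP j _ h1
      have h2 : (σ • x).int hP - (x.int hP) ^ Fintype.card F ∈ 𝔓 := hσ _ _ rfl
      have h3 : j (x.int hP) ^ Fintype.card F = j (x.int hP) := by
        rw [hx, ← map_pow, FiniteField.pow_card]
      have h4 : σ • x = x := by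
        apply hinj
        rw [← hjeq, ← h3, ← map_pow, hjeq]
        exact h2
      refine ⟨⟨x, ?_⟩, hx⟩
      conv_lhs => rw [← h4]
      exact inv_smul_smul σ x
  rw [← Nat.card_range_of_injective hA, ← Nat.card_range_of_injective hC, hrange]

end count

end Pool.Agent.DP
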