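import Pool.Agent.Lib_helper46.DP.Defs
import Pool.Agent.Lib_helper46.DP.EQ

/-!
# The double planes `y ^ 2 = D(t) (h(x) - t)`: the proof
-/

set_option autoImplicit false

namespace Pool.Agent.DP

open NumberField Polynomial Topology Pool.Agent.TT Pool.Agent.TB Pool.Agent.TF Pool.Agent.UI
open Pool.Agent.TU Pool.Agent.RF

section poly

variable {K : Type} [Field K] [Algebra K Qbar]

/-- The Galois group is transitive on the roots of an irreducible polynomial. -/
theorem fn_trans {P : (𝓞 K)[X]} (hirr : Irreducible (P.map (algebraMap (𝓞 K) K)))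
    [IsGalois K Qbar] (x y : Roots P) : ∃ g : Qbar ≃ₐ[K] Qbar, g • x = y := by
  have h : ∀ z : Roots P, aeval z.1 (P.map (algebraMap (𝓞 K) K)) = 0 := by
    intro z
    rw [aeval_map_algebraMap]
    exact z.2
  have h1 : minpoly K x.1 = minpoly K y.1 := by
    rw [← minpoly.eq_of_irreducible hirr (h x), ← minpoly.eq_of_irreducible hirr (h y)]
  obtain ⟨g, hg⟩ := (Normal.minpoly_eq_iff_mem_orbit Qbar).1 h1
  refine ⟨g⁻¹, Subtype.ext ?_⟩
  rw [Roots.smul_val]
  have h2 : g y.1 = x.1 := hg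
  rw [← h2]
  change (g⁻¹ * g) y.1 = y.1
  rw [inv_mul_cancel]
  rfl

variable {D h : (𝓞 K)[X]}

theorem fn_comp_aeval (x : Qbar) : aeval x (D.comp h) = aeval (aeval x h) D := by
  rw [aeval_comp]

/-- The map `h` from the roots of `D(h(x))` to the roots of `D`. -/
noncomputable def blockMap (D h : (𝓞 K)[X]) (x : Roots (D.comp h)) : Roots D :=
  ⟨aeval x.1 h, by rw [← fn_comp_aeval]; exact x.2⟩

theorem fn_block (g : Qbar ≃ₐ[K] Qbar) (x : Roots (D.comp h)) :
    blockMap D h (g • x) = g • blockMap D h x := by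
  apply Subtype.ext
  exact fb_aeval g h x.1

theorem fn_fibre (hh : h.Monic) (hdeg : h.natDegree ≠ 0)
    (hirr : Irreducible ((D.comp h).map (algebraMap (𝓞 K) K))) [CharZero K] (t : Roots D) :
    Nat.card {x : Roots (D.comp h) // blockMap D h x = t} = h.natDegree := by
  classical
  set Q : Qbar[X] := h.map (algebraMap (𝓞 K) Qbar) - C t.1 with hQ
  have hQdeg : Q.natDegree = h.natDegree := by
    rw [hQ, natDegree_sub_C, hh.natDegree_map]
  have hQ0 : Q ≠ 0 := by
    intro h0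
    rw [h0, natDegree_zero] at hQdeg
    exact hdeg hQdeg.symm
  have hQeval : ∀ x : Qbar, Q.eval x = aeval x h - t.1 := by
    intro x
    rw [hQ, eval_sub, eval_C, eval_map_algebraMap]
  -- separability
  have hsepK : ((D.comp h).map (algebraMap (𝓞 K) K)).Separable := hirr.separable
  have hsepQ : ((D.comp h).map (algebraMap (𝓞 K) Qbar)).Separable := by
    have h1 := hsepK.map (f := algebraMap K Qbar)
    rwa [Polynomial.map_map, ← IsScalarTower.algebraMap_eq (𝓞 K) K Qbar] at h1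
  have hcomp : (D.comp h).map (algebraMap (𝓞 K) Qbar) =
      (D.map (algebraMap (𝓞 K) Qbar)).comp (h.map (algebraMap (𝓞 K) Qbar)) := by
    rw [Polynomial.map_comp]
  have hdvd : Q ∣ (D.comp h).map (algebraMap (𝓞 K) Qbar) := by
    have h1 : (X - C t.1) ∣ D.map (algebraMap (𝓞 K) Qbar) := by
      rw [dvd_iff_isRoot, IsRoot, eval_map_algebraMap]
      exact t.2
    obtain ⟨E, hE⟩ := h1
    refine ⟨E.comp (h.map (algebraMap (𝓞 K) Qbar)), ?_⟩
    rw [hcomp, hE, mul_comp, sub_comp, X_comp, C_comp]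
  have hsep : Q.Separable := hsepQ.of_dvd hdvd
  have hcard : Nat.card (Q.rootSet Qbar) = h.natDegree := by
    rw [Nat.card_eq_fintype_card, card_rootSet_eq_natDegree hsep (IsAlgClosed.splits _), hQdeg]
  rw [← hcard]
  have hmem : ∀ x : Qbar, x ∈ Q.rootSet Qbar ↔ aeval x h = t.1 := by
    intro x
    rw [mem_rootSet_of_ne hQ0, coe_aeval_eq_eval, hQeval, sub_eq_zero]
  refine Nat.card_congr ⟨fun x => ⟨x.1.1, ?_⟩, fun x => ⟨⟨x.1, ?_⟩, ?_⟩, fun x => rfl, fun x => rfl⟩
  · rw [hmem]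
    exact congrArg Subtype.val x.2
  · rw [fn_comp_aeval, (hmem _).1 x.2]
    exact t.2
  · apply Subtype.ext
    exact (hmem _).1 x.2

end poly

section real

variable {K : Type} [Field K] [Algebra K Qbar] {D h : (𝓞 K)[X]}

/-- The representation over `ℂ_[r]`. -/
noncomputable def extRep {r : ℕ} [Fact r.Prime] {d : ℕ}
    (ρ : (Qbar ≃ₐ[K] Qbar) →* Matrix (Fin d) (Fin d) (PadicAlgCl r)) : Rep K r d :=
  ((algebraMap (PadicAlgCl r) ℂ_[r]).mapMatrix (m := Fin d)).toMonoidHom.comp ρ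

theorem extRep_apply {r : ℕ} [Fact r.Prime] {d : ℕ}
    (ρ : (Qbar ≃ₐ[K] Qbar) →* Matrix (Fin d) (Fin d) (PadicAlgCl r)) (g : Qbar ≃ₐ[K] Qbar) :
    extRep ρ g = (ρ g).map (algebraMap (PadicAlgCl r) ℂ_[r]) := rfl

theorem fn_real {r : ℕ} [Fact r.Prime] {d m : ℕ} {ζ : 𝓞 K} {ι : K →+* PadicAlgCl r}
    {ρ : (Qbar ≃ₐ[K] Qbar) →* Matrix (Fin d) (Fin d) (PadicAlgCl r)}
    (hρ : IsRealization D h m ζ ι ρ) :
    SumRealization (extRep ρ) ((algebraMap (PadicAlgCl r) ℂ_[r]).comp ι) m ζ (smS D h) := by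
  classical
  refine ⟨?_, ?_⟩
  · have h1 : Continuous (algebraMap (PadicAlgCl r) ℂ_[r]) :=
      UniformSpace.Completion.continuous_coe _
    exact hρ.continuous.matrix_map h1
  · obtain ⟨B, hB⟩ := hρ.traces
    refine ⟨B, ?_⟩
    intro q hq hqB 𝔓 h𝔓 hq𝔓 F _ _ φ hφ σ hσ
    have h1 := hB q hq hqB 𝔓 h𝔓 hq𝔓 F φ hφ σ hσ
    simp only at h1 ⊢
    have h2 : ((ρ σ⁻¹).map (algebraMap (PadicAlgCl r) ℂ_[r])).trace =
        algebraMap (PadicAlgCl r) ℂ_[r] (ρ σ⁻¹).trace := by
      rw [Matrix.trace, Matrix.trace, map_sum]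
      rfl
    rw [extRep_apply, h2, h1, sm_cover]
    rfl

/-- An eigenvalue of the representation over `ℂ_[r]`. -/
theorem fn_eigC {r : ℕ} [Fact r.Prime] {d : ℕ}
    {ρ : (Qbar ≃ₐ[K] Qbar) →* Matrix (Fin d) (Fin d) (PadicAlgCl r)} {g : Qbar ≃ₐ[K] Qbar}
    {x : PadicAlgCl r} (hx : (cyc r g • ρ g).charpoly.IsRoot x) :
    (cycC r g • extRep ρ g).charpoly.IsRoot (algebraMap (PadicAlgCl r) ℂ_[r] x) := by
  have h2 : cycC r g • extRep ρ g =
      (cyc r g • ρ g).map (algebraMap (PadicAlgCl r) ℂ_[r]) := by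
    have h3 : cycC r g = algebraMap (PadicAlgCl r) ℂ_[r] (cyc r g) := by
      unfold cycC cyc
      rw [← IsScalarTower.algebraMap_apply]
    ext i j
    rw [Matrix.smul_apply, extRep_apply, Matrix.map_apply, Matrix.map_apply,
      Matrix.smul_apply, smul_eq_mul, smul_eq_mul, map_mul, h3]
  rw [h2, Matrix.charpoly_map, IsRoot, eval_map_apply, hx.eq_zero, map_zero]

end real

section main

variable {K : Type} [Field K] [NumberField K] [Algebra K Qbar] {D h : (𝓞 K)[X]}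

/-- The number of the roots of `D(h(x))`. -/
theorem fn_mul (hD : D.Monic) (hh : h.Monic) (hdeg : h.natDegree ≠ 0)
    (hirr : Irreducible ((D.comp h).map (algebraMap (𝓞 K) K))) :
    Nat.card (Roots (D.comp h)) = Nat.card (Roots D) * h.natDegree := by
  classical
  have := fb_finite hD
  have := fb_finite (Monic.comp hD hh hdeg)
  have := Fintype.ofFinite (Roots D)
  rw [← Nat.card_congr (Equiv.sigmaFiberEquiv (blockMap D h)), Nat.card_sigma,
    Finset.sum_congr rfl fun t _ => fn_fibre hh hdeg hirr t, Finset.sum_const, smul_eq_mul,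
    Finset.card_univ, Nat.card_eq_fintype_card]

/-- All permutations of the roots of `D(h(x))` that preserve the blocks are induced. -/
theorem fn_all (hD : D.Monic) (hh : h.Monic) (hm : h.natDegree.Prime)
    (hirr : Irreducible ((D.comp h).map (algebraMap (𝓞 K) K)))
    (hA : HasTransposition (D.comp h)) (τ : Equiv.Perm (Roots (D.comp h)))
    (hτ : ∀ x, blockMap D h (τ x) = blockMap D h x) :
    ∃ g : Qbar ≃ₐ[K] Qbar, MulAction.toPermHom (Qbar ≃ₐ[K] Qbar) (Roots (D.comp h)) g = τ := by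
  classical
  have hac : Algebra.IsAlgebraic ℚ Qbar := AlgebraicClosure.isAlgebraic ℚ
  have hgal := Pool.Agent.TE.isGalois_Qbar (K := K)
  have hfin2 := fb_finite (Monic.comp hD hh hm.ne_zero)
  have := Fintype.ofFinite (Roots (D.comp h))
  obtain ⟨k, x, y, hxy, hx, hy, hkx, hky, hk⟩ := hA
  let x' : Roots (D.comp h) := ⟨x, hx⟩
  let y' : Roots (D.comp h) := ⟨y, hy⟩
  have hxy' : x' ≠ y' := fun h1 => hxy (congrArg (fun z : Roots (D.comp h) => z.1) h1)
  have hsw : SwapIn (Qbar ≃ₐ[K] Qbar) x' y' := by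
    refine ⟨k, Equiv.ext fun z => ?_⟩
    change k • z = _
    by_cases h1 : z = x'
    · rw [h1, Equiv.swap_apply_left]
      exact Subtype.ext hkx
    · by_cases h2 : z = y'
      · rw [h2, Equiv.swap_apply_right]
        exact Subtype.ext hky
      · rw [Equiv.swap_apply_of_ne_of_ne h1 h2]
        refine Subtype.ext (hk z.1 z.2 ?_ ?_)
        · intro h3
          exact h1 (Subtype.ext h3)
        · intro h3
          exact h2 (Subtype.ext h3)
  exact ta_all (gr_swap fn_block (fn_trans hirr) hm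
    (fun z => fn_fibre hh hm.ne_zero hirr (blockMap D h z)) hxy' hsw) τ hτ

/-- The permutation representations have the right traces. -/
theorem fn_card (hD : D.Monic) (hDh : (D.comp h).Monic) (p : ℕ) [Fact p.Prime] {d₁ d₂ : ℕ}
    (e₁ : Roots (D.comp h) ≃ Fin d₁) (e₂ : Roots D ≃ Fin d₂) :
    CardRealization (permRep (K := K) p e₁) (permRep (K := K) p e₂) (smS D h) := by
  classical
  refine ⟨pr_cont hDh p e₁, pr_cont hD p e₂, ?_⟩
  obtain ⟨B₁, hB₁⟩ := fb_count hDh
  obtain ⟨B₂, hB₂⟩ := fb_count hD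
  refine ⟨B₁ ∪ B₂, ?_⟩
  intro q hq hqB 𝔓 h𝔓 hq𝔓 F _ _ φ hφ σ hσ
  rw [Finset.mem_union, not_or] at hqB
  rw [pr_trace, pr_trace, hB₁ q hq hqB.1 𝔓 h𝔓 hq𝔓 F φ hφ σ hσ,
    hB₂ q hq hqB.2 𝔓 h𝔓 hq𝔓 F φ hφ σ hσ, sm_card]
  set a : ℕ := Nat.card {y : F // (D.comp h).eval₂ φ y = 0}
  set b : ℕ := Nat.card {y : F // D.eval₂ φ y = 0}
  have h1 : (a : ℂ_[p]) - (b : ℂ_[p]) -
      (((Fintype.card F : ℤ) ^ 2 - (b : ℤ) * Fintype.card F - Fintype.card F + (a : ℤ) : ℤ) : ℂ_[p]) =
      ((Fintype.card F : ℂ_[p]) - 1) * (((b : ℤ) - (Fintype.card F : ℤ) : ℤ) : ℂ_[p]) := by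
    push_cast
    ring
  rw [h1, norm_mul]
  exact mul_le_of_le_one_right (norm_nonneg _) (IsUltrametricDist.norm_intCast_le_one _ _)

omit [NumberField K] in
/-- The permutation representations depend on the action on the roots of `D(h(x))` only. -/
theorem fn_same {p : ℕ} [Fact p.Prime] {d₁ d₂ : ℕ} (e₁ : Roots (D.comp h) ≃ Fin d₁)
    (e₂ : Roots D ≃ Fin d₂) (hsurj : Function.Surjective (blockMap D h)) {g t : Qbar ≃ₐ[K] Qbar}
    (hgt : ∀ x : Roots (D.comp h), t • x = g • x) :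
    permRep p e₁ t = permRep p e₁ g ∧ permRep p e₂ t = permRep p e₂ g := by
  constructor
  · rw [permRep_apply, permRep_apply]
    congr 2
    ext i
    rw [permHom_apply, permHom_apply, hgt]
  · rw [permRep_apply, permRep_apply]
    congr 2
    ext i
    rw [permHom_apply, permHom_apply]
    obtain ⟨x, hx⟩ := hsurj (e₂.symm i)
    rw [← hx, ← fn_block, ← fn_block, hgt]

end main

end Pool.Agent.DP
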