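import Mathlib

/-!
# A group acting on a family of blocks of prime size: transpositions and elements that move a block
-/

set_option autoImplicit false

namespace Pool.Agent.DP

open Equiv MulAction

variable {G Ω Δ : Type} [Group G] [MulAction G Ω] [MulAction G Δ] [DecidableEq Ω]

/-- The swap of `x` and `y` is induced by an element of `G`. -/
def SwapIn (G : Type) {Ω : Type} [Group G] [MulAction G Ω] [DecidableEq Ω] (x y : Ω) : Prop :=
  ∃ g : G, toPermHom G Ω g = swap x y

theorem gr_refl (x : Ω) : SwapIn G x x := ⟨1, by rw [map_one, swap_self]; rfl⟩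

theorem gr_symm {x y : Ω} (h : SwapIn G x y) : SwapIn G y x := by
  obtain ⟨g, hg⟩ := h
  exact ⟨g, by rw [hg, swap_comm]⟩

theorem gr_trans {x y z : Ω} (h₁ : SwapIn G x y) (h₂ : SwapIn G y z) : SwapIn G x z := by
  by_cases hxy : x = y
  · subst hxy; exact h₂
  by_cases hyz : y = z
  · subst hyz; exact h₁
  by_cases hxz : x = z
  · subst hxz; exact gr_refl x
  obtain ⟨g, hg⟩ := h₁
  obtain ⟨k, hk⟩ := h₂
  refine ⟨k * g * k, ?_⟩
  rw [map_mul, map_mul, hg, hk, swap_mul_swap_mul_swap hxy hxz, swap_comm]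

theorem gr_conj {x y : Ω} (h : SwapIn G x y) (k : G) : SwapIn G (k • x) (k • y) := by
  obtain ⟨g, hg⟩ := h
  refine ⟨k * g * k⁻¹, ?_⟩
  rw [map_mul, map_mul, hg, map_inv]
  exact (swap_apply_apply (toPermHom G Ω k) x y).symm

/-- Two points that are swapped lie in one block. -/
theorem gr_block [DecidableEq Δ] {f : Ω → Δ} (hf : ∀ (g : G) x, f (g • x) = g • f x)
    (hcard : ∀ x : Ω, ∃ z, f z = f x ∧ z ≠ x) {x y : Ω} (h : SwapIn G x y) : f x = f y := by
  by_cases hxy : x = y
  · rw [hxy]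
  by_contra hne
  obtain ⟨g, hg⟩ := h
  have hg' : ∀ z, g • z = swap x y z := fun z => by rw [← hg]; rfl
  obtain ⟨z, hz, hzx⟩ := hcard x
  have hzy : z ≠ y := by
    rintro rfl
    exact hne hz.symm
  have h1 : g • z = z := by rw [hg', swap_apply_of_ne_of_ne hzx hzy]
  have h2 : g • x = y := by rw [hg', swap_apply_left]
  have h3 : g • f x = f x := by rw [← hz, ← hf, h1]
  rw [← hf, h2] at h3
  exact hne h3.symm

/-- If the blocks have a prime number of elements, all transpositions inside the blocks are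
induced. -/
theorem gr_swap [Fintype Ω] [DecidableEq Δ] {f : Ω → Δ} (hf : ∀ (g : G) x, f (g • x) = g • f x)
    (htr : ∀ x y : Ω, ∃ g : G, g • x = y) {m : ℕ} (hm : m.Prime)
    (hcard : ∀ x : Ω, Nat.card {z // f z = f x} = m) {x₀ y₀ : Ω} (hne : x₀ ≠ y₀)
    (h₀ : SwapIn G x₀ y₀) (x y : Ω) (hxy : f x = f y) : SwapIn G x y := by
  classical
  have hex : ∀ x : Ω, ∃ z, f z = f x ∧ z ≠ x := by
    intro x
    by_contra hcon
    push Not at hcon
    have : Nat.card {z // f z = f x} = 1 := by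
      rw [Nat.card_eq_one_iff_unique]
      exact ⟨⟨fun a b => Subtype.ext ((hcon a a.2).trans (hcon b b.2).symm)⟩, ⟨⟨x, rfl⟩⟩⟩
    rw [hcard x] at this
    exact hm.one_lt.ne' this
  have hblk : ∀ {a b : Ω}, SwapIn G a b → f a = f b := fun h => gr_block hf hex h
  -- the classes have the same number of elements
  have hk : ∀ a b : Ω, Nat.card {z // SwapIn G a z} = Nat.card {z // SwapIn G b z} := by
    intro a b
    obtain ⟨g, hg⟩ := htr a b
    refine Nat.card_congr ⟨fun z => ⟨g • z.1, by rw [← hg]; exact gr_conj z.2 g⟩,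
      fun z => ⟨g⁻¹ • z.1, by
        have := gr_conj z.2 g⁻¹
        rwa [show g⁻¹ • b = a by rw [← hg, inv_smul_smul]] at this⟩, fun z => by simp,
      fun z => by simp⟩
  -- the equivalence relation on the block of `x`
  let X := {z // f z = f x}
  let s : Setoid X := ⟨fun a b => SwapIn G a.1 b.1, fun a => gr_refl _, fun h => gr_symm h,
    fun h₁ h₂ => gr_trans h₁ h₂⟩
  have h1 : Nat.card X = ∑ q : Quotient s, Nat.card {a : X // Quotient.mk s a = q} := by
    rw [← Nat.card_congr (Equiv.sigmaFiberEquiv (Quotient.mk s)), Nat.card_sigma]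
  have h2 : ∀ q : Quotient s, Nat.card {a : X // Quotient.mk s a = q} =
      Nat.card {z // SwapIn G x z} := by
    intro q
    obtain ⟨a, rfl⟩ := Quotient.exists_rep q
    rw [hk x a.1]
    refine Nat.card_congr ⟨fun b => ⟨b.1.1, gr_symm (Quotient.exact b.2)⟩,
      fun z => ⟨⟨z.1, (hblk z.2).symm.trans a.2⟩, Quotient.sound (gr_symm z.2)⟩,
      fun b => by simp, fun z => by simp⟩
  have h3 : m = Nat.card (Quotient s) * Nat.card {z // SwapIn G x z} := by
    rw [← hcard x]
    change Nat.card X = _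
    rw [h1, Finset.sum_congr rfl fun q _ => h2 q, Finset.sum_const, smul_eq_mul,
      Finset.card_univ, Nat.card_eq_fintype_card (α := Quotient s)]
  have h4 : 1 < Nat.card {z // SwapIn G x z} := by
    rw [hk x x₀, Nat.card_eq_fintype_card, Fintype.one_lt_card_iff]
    exact ⟨⟨x₀, gr_refl _⟩, ⟨y₀, h₀⟩, fun h => hne (congrArg Subtype.val h)⟩
  have h5 : Nat.card {z // SwapIn G x z} = m := by
    rcases (Nat.dvd_prime hm).1 (Dvd.intro_left _ h3.symm) with h | h
    · omega
    · exact h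
  -- so the class of `x` is the block
  have h6 : {z | SwapIn G x z} = {z | f z = f x} := by
    refine Set.eq_of_subset_of_ncard_le (fun z hz => (hblk hz).symm) ?_ (Set.toFinite _)
    change Nat.card {z // f z = f x} ≤ Nat.card {z // SwapIn G x z}
    rw [h5, hcard x]
  have : y ∈ {z | SwapIn G x z} := by
    rw [h6]
    exact hxy.symm
  exact this

theorem gr_comm {f : Ω → Δ} {c : Δ} {p q r w : Ω} (hp : f p ≠ c) (hq : f q ≠ c) (hr : f r = c)
    (hw : f w = c) : swap p q * swap r w = swap r w * swap p q := by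
  have hd : Perm.Disjoint (swap p q) (swap r w) := by
    intro x
    by_cases hx : f x = c
    · left
      exact swap_apply_of_ne_of_ne (by rintro rfl; exact hp hx) (by rintro rfl; exact hq hx)
    · right
      exact swap_apply_of_ne_of_ne (by rintro rfl; exact hx hr) (by rintro rfl; exact hx hw)
  exact hd.commute

/-- A normal subgroup that contains an element which moves the block of `a` contains the
commutators of the transpositions inside this block. -/
theorem gr_three {f : Ω → Δ} (hf : ∀ (g : G) x, f (g • x) = g • f x)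
    (hsw : ∀ x y : Ω, f x = f y → SwapIn G x y) (U : Subgroup G) [hU : U.Normal] {g : G}
    (hg : g ∈ U) {a b e : Ω} (hab : f a = f b) (heb : f e = f b) (hmov : g • f b ≠ f b)
    (h2 : a ≠ e) (h3 : b ≠ e) :
    ∃ u ∈ U, toPermHom G Ω u = swap a e * swap e b := by
  obtain ⟨c, hc⟩ := hsw a b hab
  obtain ⟨c', hc'⟩ := hsw b e heb.symm
  obtain ⟨A, hA⟩ : ∃ A, A = g * c * g⁻¹ * c⁻¹ := ⟨_, rfl⟩
  have hgu : A ∈ U := by
    have : c * g⁻¹ * c⁻¹ ∈ U := hU.conj_mem _ (U.inv_mem hg) c
    have h := U.mul_mem hg this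
    rw [hA]
    simpa [mul_assoc] using h
  obtain ⟨S, hS⟩ : ∃ S, S = swap (g • a) (g • b) := ⟨_, rfl⟩
  obtain ⟨P, hP⟩ : ∃ P, P = swap a b := ⟨_, rfl⟩
  obtain ⟨Q, hQ⟩ : ∃ Q, Q = swap b e := ⟨_, rfl⟩
  refine ⟨A * (c' * A⁻¹ * c'⁻¹), U.mul_mem hgu (hU.conj_mem _ (U.inv_mem hgu) c'), ?_⟩
  have e1 : toPermHom G Ω A = S * P := by
    rw [hA, map_mul, map_mul, map_mul, map_inv, map_inv, hc]
    have : toPermHom G Ω g * swap a b * (toPermHom G Ω g)⁻¹ = swap (g • a) (g • b) := by
      rw [← swap_apply_apply (toPermHom G Ω g) a b]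
      rfl
    rw [this, swap_inv, hS, hP]
  have hga : f (g • a) ≠ f b := by rw [hf, hab]; exact hmov
  have hgb : f (g • b) ≠ f b := by rw [hf]; exact hmov
  have c1 : Commute S P := by
    rw [hS, hP]
    exact gr_comm hga hgb hab rfl
  have c2 : Commute S Q := by
    rw [hS, hQ]
    exact gr_comm hga hgb rfl heb
  have c3 : S * S = 1 := by rw [hS]; exact swap_mul_self _ _
  have iS : S⁻¹ = S := by rw [hS]; exact swap_inv _ _
  have iP : P⁻¹ = P := by rw [hP]; exact swap_inv _ _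
  have iQ : Q⁻¹ = Q := by rw [hQ]; exact swap_inv _ _
  have e2 : toPermHom G Ω (A * (c' * A⁻¹ * c'⁻¹)) = S * P * (Q * (S * P)⁻¹ * Q⁻¹) := by
    rw [map_mul, map_mul _ (c' * A⁻¹), map_mul _ c', map_inv, map_inv, e1, hc', ← hQ]
  have c4 : Commute S (P * Q * P * Q) := ((c1.mul_right c2).mul_right c1).mul_right c2
  have e3 : S * P * (Q * (S * P)⁻¹ * Q⁻¹) = P * Q * P * Q := by
    rw [mul_inv_rev, iS, iP, iQ]
    calc S * P * (Q * (P * S) * Q) = S * (P * Q * P) * (S * Q) := by simp only [mul_assoc]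
      _ = S * (P * Q * P) * (Q * S) := by rw [c2.eq]
      _ = S * (P * Q * P * Q) * S := by simp only [mul_assoc]
      _ = (P * Q * P * Q) * (S * S) := by rw [c4.eq, mul_assoc]
      _ = P * Q * P * Q := by rw [c3, mul_one]
  rw [e2, e3]
  have e4 : P * Q * P = swap a e := by
    rw [hP, hQ, swap_comm b e, swap_comm a b, swap_mul_swap_mul_swap h3.symm h2.symm]
  rw [e4, hQ, swap_comm b e]

/-- Cycles of odd length inside one block. -/
theorem gr_list {f : Ω → Δ} (hf : ∀ (g : G) x, f (g • x) = g • f x)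
    (hsw : ∀ x y : Ω, f x = f y → SwapIn G x y) (U : Subgroup G) [hU : U.Normal] {g : G}
    (hg : g ∈ U) {δ : Δ} (hmov : g • δ ≠ δ) :
    ∀ (k : ℕ) (l : List Ω), l.length = 2 * k + 1 → l.Nodup → (∀ x ∈ l, f x = δ) →
      ∃ u ∈ U, toPermHom G Ω u = l.formPerm := by
  intro k
  induction k with
  | zero =>
    intro l hl _ _
    obtain ⟨a, rfl⟩ := List.length_eq_one_iff.1 hl
    exact ⟨1, U.one_mem, by rw [map_one, List.formPerm_singleton]⟩
  | succ k ih =>
    intro l hl hn hδ
    match l, hl, hn, hδ with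
    | a :: b :: e :: r, hl, hn, hδ =>
      have ha : f a = δ := hδ a (by simp)
      have hb : f b = δ := hδ b (by simp)
      have he : f e = δ := hδ e (by simp)
      rw [List.nodup_cons, List.nodup_cons] at hn
      obtain ⟨hn1, hn2, hn3⟩ := hn
      simp only [List.mem_cons, not_or] at hn1 hn2
      obtain ⟨u, hu, hu'⟩ := ih (e :: r) (by simp only [List.length_cons] at hl ⊢; omega) hn3
        fun x hx => hδ x (by simp only [List.mem_cons] at hx ⊢; tauto)
      obtain ⟨v, hv, hv'⟩ := gr_three (a := a) (b := e) (e := b) hf hsw U hg (ha.trans he.symm)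
        (hb.trans he.symm) (by rw [he]; exact hmov) hn1.1 (Ne.symm hn2.1)
      refine ⟨v * u, U.mul_mem hv hu, ?_⟩
      rw [map_mul, hv', hu', List.formPerm_cons_cons, List.formPerm_cons_cons, mul_assoc]
    | [], hl, _, _ => simp at hl
    | [_], hl, _, _ => simp at hl
    | [_, _], hl, _, _ => simp at hl

/-- **Main statement on groups.** -/
theorem gr_main [Finite Ω] [Finite Δ] {f : Ω → Δ} (hsurj : Function.Surjective f)
    (hf : ∀ (g : G) x, f (g • x) = g • f x)
    (htr : ∀ x y : Ω, ∃ g : G, g • x = y) {m : ℕ} (hm : m.Prime) (hmo : Odd m)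
    (hcard : ∀ x : Ω, Nat.card {z // f z = f x} = m) {x₀ y₀ : Ω} (hne : x₀ ≠ y₀)
    (h₀ : SwapIn G x₀ y₀) (U : Subgroup G) [hU : U.Normal] {g₀ : G} (hg₀ : g₀ ∈ U) {δ₀ : Δ}
    (hmov : g₀ • δ₀ ≠ δ₀) :
    ∃ u ∈ U, (∀ δ : Δ, u • δ = δ) ∧ (∀ x : Ω, u ^ m • x = x) ∧
      ∀ (x : Ω) (i : ℕ), 0 < i → i < m → u ^ i • x ≠ x := by
  classical
  have := Fintype.ofFinite Ω
  have := Fintype.ofFinite Δ
  have hsw : ∀ x y : Ω, f x = f y → SwapIn G x y := gr_swap hf htr hm hcard hne h₀
  -- elements that move an arbitrary block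
  have hmv : ∀ δ : Δ, ∃ g ∈ U, g • δ ≠ δ := by
    intro δ
    obtain ⟨x, rfl⟩ := hsurj δ
    obtain ⟨x₁, hx₁⟩ := hsurj δ₀
    obtain ⟨k, hk⟩ := htr x₁ x
    refine ⟨k * g₀ * k⁻¹, hU.conj_mem _ hg₀ k, ?_⟩
    intro h
    apply hmov
    have h1 : k⁻¹ • f x = δ₀ := by rw [← hf, ← hk, inv_smul_smul, hx₁]
    rw [mul_smul, mul_smul, h1] at h
    rw [← h, inv_smul_smul] at h1
    exact h1
  -- the lists
  have hl : ∀ δ : Δ, ∃ l : List Ω, l.Nodup ∧ l.length = m ∧ ∀ x, x ∈ l ↔ f x = δ := by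
    intro δ
    obtain ⟨x, rfl⟩ := hsurj δ
    refine ⟨(Finset.univ.filter fun z => f z = f x).toList, Finset.nodup_toList _, ?_, ?_⟩
    · rw [Finset.length_toList, ← hcard x, Nat.card_eq_fintype_card, Fintype.card_subtype]
    · intro y
      simp
  choose l hln hlm hlx using hl
  obtain ⟨k, hk⟩ := hmo
  have hcyc : ∀ δ : Δ, ∃ u ∈ U, toPermHom G Ω u = (l δ).formPerm := by
    intro δ
    obtain ⟨g, hg, hgδ⟩ := hmv δ
    exact gr_list hf hsw U hg hgδ k (l δ) ((hlm δ).trans hk) (hln δ) fun x hx => (hlx δ x).1 hx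
  have hmem : ∀ (δ : Δ) (x : Ω), f x = δ → f ((l δ).formPerm x) = δ := by
    intro δ x hx
    rw [← hlx] at hx ⊢
    exact List.formPerm_apply_mem_of_mem hx
  have hfix : ∀ (δ : Δ) (x : Ω), f x ≠ δ → (l δ).formPerm x = x := by
    intro δ x hx
    apply List.formPerm_apply_of_notMem
    rwa [hlx]
  have hind : ∀ s : Finset Δ, ∃ u ∈ U, ∀ x : Ω, u • x =
      if f x ∈ s then (l (f x)).formPerm x else x := by
    intro s
    induction s using Finset.induction_on with
    | empty => exact ⟨1, U.one_mem, fun x => by simp⟩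
    | insert δ s hδ ih =>
      obtain ⟨u, hu, hux⟩ := ih
      obtain ⟨v, hv, hvx⟩ := hcyc δ
      refine ⟨v * u, U.mul_mem hv hu, fun x => ?_⟩
      have hv' : ∀ y : Ω, v • y = (l δ).formPerm y := fun y => by rw [← hvx]; rfl
      rw [mul_smul, hux]
      by_cases h1 : f x = δ
      · have h2 : f x ∉ s := by rwa [h1]
        rw [if_neg h2, hv', if_pos (by rw [h1]; exact Finset.mem_insert_self _ _), h1]
      · by_cases h2 : f x ∈ s
        · rw [if_pos h2, if_pos (Finset.mem_insert_of_mem h2), hv', hfix]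
          rw [hmem (f x) x rfl]
          exact h1
        · rw [if_neg h2, if_neg (by simp [h1, h2]), hv', hfix _ _ h1]
  obtain ⟨u, hu, hux⟩ := hind Finset.univ
  have hux' : ∀ x : Ω, u • x = (l (f x)).formPerm x := fun x => by
    rw [hux, if_pos (Finset.mem_univ _)]
  have hfx : ∀ x : Ω, f (u • x) = f x := fun x => by rw [hux']; exact hmem _ _ rfl
  have hpow : ∀ (i : ℕ) (x : Ω), u ^ i • x = ((l (f x)).formPerm ^ i) x ∧ f (u ^ i • x) = f x := by
    intro i
    induction i with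
    | zero => intro x; simp
    | succ i ih =>
      intro x
      rw [pow_succ', mul_smul, hux', (ih x).2, (ih x).1, pow_succ']
      refine ⟨rfl, ?_⟩
      apply hmem
      rw [← (ih x).1, (ih x).2]
  refine ⟨u, hu, fun δ => ?_, fun x => ?_, fun x i hi him => ?_⟩
  · obtain ⟨x, rfl⟩ := hsurj δ
    rw [← hf, hfx]
  · rw [(hpow m x).1]
    conv_lhs => rw [← hlm (f x)]
    rw [List.formPerm_pow_length_eq_one_of_nodup _ (hln _)]
    rfl
  · rw [(hpow i x).1]
    obtain ⟨j, hj, hjx⟩ := List.getElem_of_mem ((hlx (f x) x).2 rfl)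
    intro h
    have h1 : ((l (f x)).formPerm ^ i) (l (f x))[j] = (l (f x))[j] := by
      rw [hjx]; exact h
    rw [List.formPerm_pow_apply_getElem _ (hln _), (hln _).getElem_inj_iff, hlm] at h1
    rw [hlm] at hj
    rcases Nat.lt_or_ge (j + i) m with h2 | h2
    · rw [Nat.mod_eq_of_lt h2] at h1
      omega
    · rw [Nat.mod_eq_sub_mod h2, Nat.mod_eq_of_lt (by omega)] at h1
      omega

end Pool.Agent.DP
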