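import Pool.Agent.Lib_helper46.DP.FB
import Pool.Agent.Lib_helper46.UI.FN

/-!
# Permutation representations
-/

set_option autoImplicit false

namespace Pool.Agent.DP

open NumberField Polynomial Topology Pool.Agent.TT Pool.Agent.TF Pool.Agent.UI Pool.Agent.TU

section gen

variable {K : Type} [Field K] [Algebra K Qbar] {X : Type} [MulAction (Qbar ≃ₐ[K] Qbar) X] {d : ℕ}

/-- The permutations of `Fin d`. -/
noncomputable def permHom (e : X ≃ Fin d) : (Qbar ≃ₐ[K] Qbar) →* Equiv.Perm (Fin d) :=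
  (e.permCongrHom : Equiv.Perm X →* Equiv.Perm (Fin d)).comp
    (MulAction.toPermHom (Qbar ≃ₐ[K] Qbar) X)

theorem permHom_apply (e : X ≃ Fin d) (g : Qbar ≃ₐ[K] Qbar) (i : Fin d) :
    permHom e g i = e (g • e.symm i) := rfl

/-- The permutation representation over `ℂ_[p]`. -/
noncomputable def permRep (p : ℕ) [Fact p.Prime] (e : X ≃ Fin d) : Rep K p d where
  toFun g := ((permHom e g)⁻¹).permMatrix ℂ_[p]
  map_one' := by rw [map_one, inv_one, Matrix.permMatrix_one]
  map_mul' g h := by rw [map_mul, mul_inv_rev, Matrix.permMatrix_mul]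

theorem permRep_apply (p : ℕ) [Fact p.Prime] (e : X ≃ Fin d) (g : Qbar ≃ₐ[K] Qbar) :
    permRep p e g = ((permHom e g)⁻¹).permMatrix ℂ_[p] := rfl

theorem pr_trace (p : ℕ) [Fact p.Prime] (e : X ≃ Fin d) (g : Qbar ≃ₐ[K] Qbar) :
    (permRep p e g).trace = (Nat.card {x : X // g • x = x} : ℂ_[p]) := by
  rw [permRep_apply, Matrix.trace_permutation]
  congr 1
  rw [← Nat.card_coe_set_eq]
  have h : ∀ i : Fin d, (permHom e g)⁻¹ i = i ↔ g • e.symm i = e.symm i := by
    intro i
    rw [Equiv.Perm.inv_eq_iff_eq, permHom_apply]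
    constructor
    · intro h
      conv_rhs => rw [h]
      rw [e.symm_apply_apply]
    · intro h
      rw [h, e.apply_symm_apply]
  refine Nat.card_congr ⟨fun i => ⟨e.symm i.1, (h i.1).1 i.2⟩, fun x => ⟨e x.1, ?_⟩,
    fun i => ?_, fun x => ?_⟩
  · refine (h _).2 ?_
    rw [e.symm_apply_apply]
    exact x.2
  · apply Subtype.ext
    exact e.apply_symm_apply i.1
  · apply Subtype.ext
    exact e.symm_apply_apply x.1

theorem pr_pow (p : ℕ) [Fact p.Prime] (e : X ≃ Fin d) (g : Qbar ≃ₐ[K] Qbar)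
    (h : ∀ x : X, g • x = x) : permRep p e g = 1 := by
  rw [permRep_apply]
  have : permHom e g = 1 := by
    ext i
    rw [permHom_apply, h, e.apply_symm_apply]
    rfl
  rw [this, inv_one, Matrix.permMatrix_one]

/-- The eigenvalues of the identity matrix. -/
theorem pr_one (p : ℕ) [Fact p.Prime] (d : ℕ) :
    (1 : Matrix (Fin d) (Fin d) ℂ_[p]).charpoly.roots = Multiset.replicate d 1 := by
  rw [Matrix.charpoly_one, Fintype.card_fin, ← C_1, roots_pow, roots_X_sub_C,
    Multiset.nsmul_singleton]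

theorem pr_res_one (p : ℕ) [Fact p.Prime] (d : ℕ) :
    residuallyOne (1 : Matrix (Fin d) (Fin d) ℂ_[p]) = d := by
  classical
  unfold residuallyOne
  rw [pr_one, Multiset.filter_eq_self.2, Multiset.card_replicate]
  intro x hx
  rw [Multiset.eq_of_mem_replicate hx, sub_self, norm_zero]
  exact zero_lt_one

theorem pr_unit {p : ℕ} [hp : Fact p.Prime] {m : ℕ} (hm : ¬p ∣ m) : ‖(m : ℂ_[p])‖ = 1 := by
  refine le_antisymm (IsUltrametricDist.norm_natCast_le_one _ m) ?_
  by_contra hcon
  push Not at hcon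
  have hcop : IsCoprime (m : ℤ) (p : ℤ) := by
    rw [Nat.isCoprime_iff_coprime]
    exact ((hp.out.coprime_iff_not_dvd).2 hm).symm
  obtain ⟨a, b, hab⟩ := hcop
  have h1 : (1 : ℂ_[p]) = (a : ℂ_[p]) * (m : ℂ_[p]) + (b : ℂ_[p]) * (p : ℂ_[p]) := by
    have h2 := congrArg (Int.cast : ℤ → ℂ_[p]) hab
    push_cast at h2
    exact h2.symm
  have hle : ∀ (c : ℤ) (x : ℂ_[p]), ‖x‖ < 1 → ‖(c : ℂ_[p]) * x‖ < 1 := by
    intro c x hx
    rw [norm_mul]
    calc ‖(c : ℂ_[p])‖ * ‖x‖ ≤ 1 * ‖x‖ :=
          mul_le_mul_of_nonneg_right (IsUltrametricDist.norm_intCast_le_one _ c) (norm_nonneg _)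
      _ = ‖x‖ := one_mul _
      _ < 1 := hx
  have h3 := IsUltrametricDist.norm_add_le_max ((a : ℂ_[p]) * (m : ℂ_[p]))
    ((b : ℂ_[p]) * (p : ℂ_[p]))
  rw [← h1, norm_one] at h3
  exact absurd h3 (not_le.2 (max_lt (hle a _ hcon) (hle b _ (Pool.Agent.RF.norm_p_lt p))))

/-- A root of unity of order prime to `p` that is congruent to `1` is `1`. -/
theorem pr_eq_one {p : ℕ} [hp : Fact p.Prime] {m : ℕ} (hm : ¬p ∣ m) {x : ℂ_[p]} (hx : x ^ m = 1)
    (hnear : ‖x - 1‖ < 1) : x = 1 := by
  by_contra hx1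
  have hg : ∑ i ∈ Finset.range m, x ^ i = 0 := by
    have h3 := geom_sum_mul x m
    rw [hx, sub_self] at h3
    rcases mul_eq_zero.1 h3 with h4 | h4
    · exact h4
    · exact absurd (sub_eq_zero.1 h4) hx1
  have hnx : ‖x‖ = 1 := ms_norm_of_near hnear
  have h3 : ‖(m : ℂ_[p])‖ < 1 := by
    have h4 : (m : ℂ_[p]) = -∑ i ∈ Finset.range m, (x ^ i - 1) := by
      rw [Finset.sum_sub_distrib, hg]
      simp
    rw [h4, norm_neg]
    apply Pool.Agent.TT.gn_sum_lt _ _ zero_lt_one
    intro i _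
    exact lt_of_le_of_lt (ms_pow_near hnx.le le_rfl i) hnear
  rw [pr_unit hm] at h3
  exact lt_irrefl _ h3

theorem pr_swap {C : Type} [CommRing C] (t : Multiset C) (s : Finset ℕ) :
    (t.map fun x => ∑ i ∈ s, x ^ i).sum = ∑ i ∈ s, (t.map fun x => x ^ i).sum := by
  induction t using Multiset.induction_on with
  | empty => simp
  | cons a t ih =>
    simp only [Multiset.map_cons, Multiset.sum_cons]
    rw [ih, Finset.sum_add_distrib]

/-- The number of the eigenvalues that are congruent to `1`, for a permutation all of whose cycles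
have the length `m` prime to `p`. -/
theorem pr_res {p : ℕ} [hp : Fact p.Prime] (e : X ≃ Fin d) (u : Qbar ≃ₐ[K] Qbar) {m n : ℕ}
    (hm : ¬p ∣ m) (hd : d = n * m)
    (h1 : ∀ x : X, u ^ m • x = x) (h2 : ∀ (x : X) (i : ℕ), 0 < i → i < m → u ^ i • x ≠ x) :
    residuallyOne (permRep p e u) = n := by
  classical
  have hm0 : 0 < m := Nat.pos_of_ne_zero fun h => hm (h ▸ dvd_zero p)
  set A : Matrix (Fin d) (Fin d) ℂ_[p] := permRep p e u with hA
  have hAm : A ^ m = 1 := by
    rw [hA, ← map_pow]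
    exact pr_pow p e _ h1
  have hroots : ∀ x ∈ A.charpoly.roots, x ^ m = 1 := by
    intro x hx
    have h3 := Pool.Agent.OS.nw_pow A m
    rw [hAm, pr_one] at h3
    have h4 : x ^ m ∈ Multiset.map (fun x => x ^ m) A.charpoly.roots :=
      Multiset.mem_map_of_mem _ hx
    rw [← h3] at h4
    exact Multiset.eq_of_mem_replicate h4
  have htr : ∀ i < m, (Multiset.map (fun x => x ^ i) A.charpoly.roots).sum =
      if i = 0 then (d : ℂ_[p]) else 0 := by
    intro i hi
    rw [← tu_mtrace]
    by_cases h0 : i = 0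
    · rw [if_pos h0, h0, pow_zero, Matrix.trace_one, Fintype.card_fin]
    · rw [if_neg h0, hA, ← map_pow, pr_trace]
      have : IsEmpty {x : X // u ^ i • x = x} :=
        ⟨fun x => h2 x.1 i (Nat.pos_of_ne_zero h0) hi x.2⟩
      rw [Nat.card_of_isEmpty, Nat.cast_zero]
  have hsum : (Multiset.map (fun x => ∑ i ∈ Finset.range m, x ^ i) A.charpoly.roots).sum =
      (d : ℂ_[p]) := by
    rw [pr_swap, Finset.sum_congr rfl fun i hi => htr i (Finset.mem_range.1 hi),
      Finset.sum_ite_eq' , if_pos (Finset.mem_range.2 hm0)]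
  have hval : ∀ x ∈ A.charpoly.roots, ∑ i ∈ Finset.range m, x ^ i =
      if ‖x - 1‖ < 1 then (m : ℂ_[p]) else 0 := by
    intro x hx
    have hxm := hroots x hx
    by_cases hx1 : x = 1
    · rw [hx1, if_pos (by rw [sub_self, norm_zero]; exact zero_lt_one)]
      simp
    · have hg : ∑ i ∈ Finset.range m, x ^ i = 0 := by
        have h3 := geom_sum_mul x m
        rw [hxm, sub_self] at h3
        rcases mul_eq_zero.1 h3 with h4 | h4
        · exact h4
        · exact absurd (sub_eq_zero.1 h4) hx1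
      rw [hg, if_neg fun hnear => hx1 (pr_eq_one hm hxm hnear)]
  rw [Multiset.map_congr rfl hval] at hsum
  have hcount : (Multiset.map (fun x : ℂ_[p] => if ‖x - 1‖ < 1 then (m : ℂ_[p]) else 0)
      A.charpoly.roots).sum = (residuallyOne A : ℂ_[p]) * m := by
    unfold residuallyOne
    generalize A.charpoly.roots = t
    induction t using Multiset.induction_on with
    | empty => simp
    | cons a t ih =>
      rw [Multiset.map_cons, Multiset.sum_cons, ih]
      by_cases ha : ‖a - 1‖ < 1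
      · rw [if_pos ha, Multiset.filter_cons_of_pos (p := fun x : ℂ_[p] => ‖x - 1‖ < 1) _ ha,
          Multiset.card_cons]
        push_cast
        ring
      · rw [if_neg ha, Multiset.filter_cons_of_neg (p := fun x : ℂ_[p] => ‖x - 1‖ < 1) _ ha,
          zero_add]
  rw [hcount] at hsum
  have h3 : residuallyOne A * m = n * m := by
    rw [← hd]
    exact_mod_cast hsum
  exact Nat.eq_of_mul_eq_mul_right hm0 h3

end gen

/-- The permutation representations on the roots of a polynomial are continuous. -/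
theorem pr_cont {K : Type} [Field K] [NumberField K] [Algebra K Qbar] {P : (𝓞 K)[X]}
    (hP : P.Monic) (p : ℕ) [Fact p.Prime] {d : ℕ} (e : Roots P ≃ Fin d) :
    Continuous (permRep (K := K) p e) := by
  have hfin := fb_finite hP
  rw [continuous_iff_continuousAt]
  intro h
  have h1 := tg_nhds h (fun x : Roots P => x.1)
  have h2 : ∀ᶠ σ in 𝓝 h, permRep p e h = permRep p e σ := by
    filter_upwards [h1] with σ hσ
    rw [permRep_apply, permRep_apply]
    congr 2
    ext i
    rw [permHom_apply, permHom_apply]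
    congr 2
    apply Subtype.ext
    exact (hσ (e.symm i)).symm
  exact (continuousAt_const (y := permRep p e h)).congr h2

end Pool.Agent.DP
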