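import Pool.Agent.Lib_helper61.TB.DefsE

/-!
# The points of the surface `y ^ 2 = D(t) (h(x) - t)` over finite fields
-/

set_option autoImplicit false

namespace Pool.Agent.DP

open NumberField Polynomial Pool.Agent.TT Pool.Agent.TF

/-- The number of the points of the affine surface `y ^ 2 = D(t) (h(x) - t)` with coordinates
`(t, x, y)` in `F`. -/
noncomputable def surfacePoints {K : Type} [Field K] (D h : (𝓞 K)[X]) {F : Type} [Field F]
    (φ : 𝓞 K →+* F) : ℕ :=
  Nat.card {P : F × F × F // P.2.2 ^ 2 = D.eval₂ φ P.1 * (h.eval₂ φ P.2.1 - P.1)}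

/-- The sum of the `m`-th power residue symbols of `D(t) (h(x) - t)` over all `(t, x)` in `F × F`. -/
noncomputable def coverSum {K : Type} [Field K] (D h : (𝓞 K)[X]) (m : ℕ) (ζ : 𝓞 K) {F : Type}
    [Field F] [Fintype F] (φ : 𝓞 K →+* F) : 𝓞 K :=
  ∑ P : F × F, residueSymbol m ζ φ (D.eval₂ φ P.1 * (h.eval₂ φ P.2 - P.1))

/-- The polynomial `D(t) (h(x) - t)`. -/
noncomputable def smG {K : Type} [Field K] (D h : (𝓞 K)[X]) : MvPolynomial (Fin 2) (𝓞 K) :=
  aeval (MvPolynomial.X 0) D * (aeval (MvPolynomial.X 1) h - MvPolynomial.X 0)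

/-- The stratum. -/
noncomputable def smS {K : Type} [Field K] (D h : (𝓞 K)[X]) : Fin 1 → Stratum K :=
  fun _ => ⟨2, smG D h, 1⟩

section

variable {K : Type} [Field K] {F : Type} [Field F] (φ : 𝓞 K →+* F)

theorem sm_eval (D h : (𝓞 K)[X]) (x : Fin 2 → F) :
    (smG D h).eval₂ φ x = D.eval₂ φ (x 0) * (h.eval₂ φ (x 1) - x 0) := by
  have h1 : ∀ (P : (𝓞 K)[X]) (i : Fin 2),
      (MvPolynomial.eval₂Hom φ x) (aeval (MvPolynomial.X i) P) = P.eval₂ φ (x i) := by
    intro P i
    rw [aeval_def, Polynomial.hom_eval₂]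
    have : (MvPolynomial.eval₂Hom φ x).comp (algebraMap (𝓞 K) (MvPolynomial (Fin 2) (𝓞 K))) = φ := by
      ext a
      rw [RingHom.comp_apply, MvPolynomial.algebraMap_eq]
      exact MvPolynomial.eval₂_C φ x a
    rw [this]
    congr 1
    exact MvPolynomial.eval₂_X φ x i
  have h2 : (smG D h).eval₂ φ x = (MvPolynomial.eval₂Hom φ x) (smG D h) := rfl
  rw [h2, smG, map_mul, map_sub, h1, h1]
  congr 2
  exact MvPolynomial.eval₂_X φ x 0

variable [Fintype F]

open Classical in
/-- The quadratic residue symbol. -/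
theorem sm_symbol (h2 : ringChar F ≠ 2) (y : F) :
    residueSymbol 2 (-1) φ y = ((quadraticChar F y : ℤ) : 𝓞 K) := by
  classical
  have hodd : Fintype.card F % 2 = 1 := FiniteField.odd_card_of_char_ne_two h2
  have h1 : (Fintype.card F - 1) / 2 = Fintype.card F / 2 := by omega
  have hne : (-1 : F) ≠ 1 := Ring.neg_one_ne_one_of_char_ne_two h2
  unfold residueSymbol
  rw [Fin.sum_univ_two, h1]
  simp only [Fin.val_zero, Fin.val_one, pow_zero, pow_one, map_neg, map_one]
  by_cases hy : y = 0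
  · have hc : Fintype.card F / 2 ≠ 0 := by
      have : 1 < Fintype.card F := Fintype.one_lt_card
      omega
    rw [hy, zero_pow hc, if_neg zero_ne_one, if_neg (neg_ne_zero.2 one_ne_zero).symm,
      quadraticChar_zero]
    simp
  · rw [quadraticChar_eq_pow_of_char_ne_two h2 hy]
    rcases FiniteField.pow_dichotomy h2 hy with h3 | h3
    · rw [h3, if_pos rfl, if_pos rfl, if_neg hne.symm]
      simp
    · rw [h3, if_neg hne, if_neg hne, if_pos rfl]
      simp

open Classical in
/-- The number of the points. -/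
theorem sm_points (h2 : ringChar F ≠ 2) (D h : (𝓞 K)[X]) :
    (surfacePoints D h φ : ℤ) = (Fintype.card F : ℤ) ^ 2 +
      ∑ x : Fin 2 → F, (quadraticChar F (D.eval₂ φ (x 0) * (h.eval₂ φ (x 1) - x 0)) : ℤ) := by
  classical
  have h1 : surfacePoints D h φ =
      ∑ x : Fin 2 → F, Nat.card {y : F // y ^ 2 = D.eval₂ φ (x 0) * (h.eval₂ φ (x 1) - x 0)} := by
    rw [← Nat.card_sigma]
    refine Nat.card_congr ⟨fun P => ⟨![P.1.1, P.1.2.1], ⟨P.1.2.2, P.2⟩⟩,
      fun Q => ⟨(Q.1 0, Q.1 1, Q.2.1), Q.2.2⟩, fun P => rfl, fun Q => ?_⟩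
    obtain ⟨x, y, hy⟩ := Q
    have hx : ![x 0, x 1] = x := by
      ext i
      fin_cases i <;> rfl
    refine Sigma.ext hx ?_
    simp only
    congr 1
  have h3 : ∀ a : F, (Nat.card {y : F // y ^ 2 = a} : ℤ) = quadraticChar F a + 1 := by
    intro a
    rw [← quadraticChar_card_sqrts h2 a, Nat.card_eq_fintype_card, Set.toFinset_card]
    rfl
  rw [h1, Nat.cast_sum, Finset.sum_congr rfl fun x _ => h3 _, Finset.sum_add_distrib, add_comm]
  congr 1
  rw [Finset.sum_const, Finset.card_univ, Fintype.card_fun, Fintype.card_fin, nsmul_eq_mul, mul_one]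
  push_cast
  rfl

theorem sm_cover (D h : (𝓞 K)[X]) (m : ℕ) (ζ : 𝓞 K) :
    strataSum m ζ φ (smS D h) = coverSum D h m ζ φ := by
  classical
  unfold strataSum smS coverSum
  rw [Fin.sum_univ_one, Int.cast_one, one_mul]
  refine Fintype.sum_equiv (finTwoArrowEquiv F) _ _ fun x => ?_
  rw [sm_eval]
  rfl

/-- **Double planes**: for `m = 2` the sum is the number of the points of the affine surface minus
`|F| ^ 2`. -/
theorem sm_double (h2 : ringChar F ≠ 2) (D h : (𝓞 K)[X]) :
    coverSum D h 2 (-1) φ = ((surfacePoints D h φ : ℤ) - (Fintype.card F : ℤ) ^ 2 : ℤ) := by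
  classical
  rw [← sm_cover]
  unfold strataSum smS
  rw [Fin.sum_univ_one, sm_points φ h2]
  simp only [Int.cast_one, one_mul]
  rw [Finset.sum_congr rfl fun x _ => sm_symbol φ h2 _]
  simp only [sm_eval]
  push_cast
  ring

theorem sm_card (D h : (𝓞 K)[X]) :
    strataCard φ (smS D h) = (Fintype.card F : ℤ) ^ 2 -
      (Nat.card {y : F // D.eval₂ φ y = 0} : ℤ) * Fintype.card F - Fintype.card F +
      (Nat.card {y : F // (D.comp h).eval₂ φ y = 0} : ℤ) := by
  classical
  unfold strataCard smS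
  rw [Fin.sum_univ_one, one_mul]
  have h1 : Nat.card {x : Fin 2 → F // (smG D h).eval₂ φ x ≠ 0} =
      ∑ x : F, ∑ t : F, if D.eval₂ φ t ≠ 0 ∧ h.eval₂ φ x ≠ t then 1 else 0 := by
    rw [← Finset.sum_product', ← Finset.card_filter, Nat.card_eq_fintype_card,
      Fintype.card_subtype]
    refine Finset.card_bij' (fun x _ => (x 1, x 0)) (fun p _ => ![p.2, p.1]) ?_ ?_ ?_ ?_
    · intro x hx
      rw [Finset.mem_filter, sm_eval] at hx
      rw [Finset.mem_filter]
      refine ⟨Finset.mem_product.2 ⟨Finset.mem_univ _, Finset.mem_univ _⟩, ?_, ?_⟩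
      · exact (mul_ne_zero_iff.1 hx.2).1
      · exact sub_ne_zero.1 (mul_ne_zero_iff.1 hx.2).2
    · intro p hp
      rw [Finset.mem_filter] at hp
      rw [Finset.mem_filter, sm_eval]
      exact ⟨Finset.mem_univ _, mul_ne_zero hp.2.1 (sub_ne_zero.2 hp.2.2)⟩
    · intro x _
      ext i
      fin_cases i <;> rfl
    · intro p _
      rfl
  have h2 : ∀ x t : F, (if D.eval₂ φ t ≠ 0 ∧ h.eval₂ φ x ≠ t then (1 : ℤ) else 0) =
      1 - (if D.eval₂ φ t = 0 then 1 else 0) - (if h.eval₂ φ x = t then 1 else 0) +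
        (if h.eval₂ φ x = t then (if D.eval₂ φ (h.eval₂ φ x) = 0 then 1 else 0) else 0) := by
    intro x t
    by_cases ha : D.eval₂ φ t = 0
    · by_cases hb : h.eval₂ φ x = t
      · simp [ha, hb]
      · simp [ha, hb]
    · by_cases hb : h.eval₂ φ x = t
      · simp [ha, hb]
      · simp [ha, hb]
  have h3 : ∀ (P : F → Prop) [DecidablePred P], (Nat.card {y : F // P y} : ℤ) =
      ∑ y : F, if P y then 1 else 0 := by
    intro P _
    rw [Nat.card_eq_fintype_card, Fintype.card_subtype, Finset.card_filter]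
    push_cast
    rfl
  rw [h1, h3 fun y => D.eval₂ φ y = 0, h3 fun y => (D.comp h).eval₂ φ y = 0]
  push_cast
  rw [Finset.sum_congr rfl fun x _ => Finset.sum_congr rfl fun t _ => h2 x t]
  simp only [Finset.sum_add_distrib, Finset.sum_sub_distrib, Finset.sum_ite_eq, Finset.mem_univ,
    if_true, Finset.sum_const, Finset.card_univ, nsmul_eq_mul, mul_one, eval₂_comp]
  ring

end

end Pool.Agent.DP
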